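import Mathlib

namespace Pool.Agent.MP_c44838_an

open Cardinal

universe u

lemma mk_finsets_le {J : Type u} (S : Set J) (μ : Cardinal.{u}) (hμ : ℵ₀ ≤ μ) (hS : #S ≤ μ) :
    #{s : Finset J | (s : Set J) ⊆ S} ≤ μ := by
  classical
  have h1 : #{s : Finset J | (s : Set J) ⊆ S} ≤ #(List S) := by
    refine mk_le_of_surjective
      (f := fun l : List S => ⟨(l.map Subtype.val).toFinset, ?_⟩) ?_
    · intro x hx
      simp only [List.coe_toFinset, List.mem_map, Set.mem_ofPred_eq] at hx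
      obtain ⟨y, -, rfl⟩ := hx
      exact y.2
    · rintro ⟨s, hs⟩
      refine ⟨(s.subtype (· ∈ S)).toList, ?_⟩
      apply Subtype.ext
      ext x
      simp only [List.mem_toFinset, List.mem_map, Finset.mem_toList, Finset.mem_subtype]
      constructor
      · rintro ⟨y, hy, rfl⟩; exact hy
      · intro hx; exact ⟨⟨x, hs hx⟩, hx, rfl⟩
  exact h1.trans ((mk_list_le_max _).trans (max_le hμ hS))

lemma mk_biUnion_countable_le {J K : Type u} (S : Set J) (μ : Cardinal.{u}) (hμ : ℵ₀ ≤ μ)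
    (hS : #S ≤ μ) (f : Finset J → Set K) (hf : ∀ s, (f s).Countable) :
    #(⋃ s ∈ {s : Finset J | (s : Set J) ⊆ S}, f s) ≤ μ := by
  refine (mk_biUnion_le _ _).trans ?_
  have h1 := mk_finsets_le S μ hμ hS
  have h2 : ⨆ x : {s : Finset J | (s : Set J) ⊆ S}, #(f x.1) ≤ μ :=
    ciSup_le' fun x => (le_aleph0_iff_set_countable.mpr (hf _)).trans hμ
  exact (mul_le_mul' h1 h2).trans (mul_eq_self hμ).le

lemma exists_closed {J : Type u} (S₀ : Set J) (μ : Cardinal.{u}) (hμ : ℵ₀ ≤ μ) (hS : #S₀ ≤ μ)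
    (f : Finset J → Set J) (hf : ∀ s, (f s).Countable) :
    ∃ S : Set J, S₀ ⊆ S ∧ #S ≤ μ ∧ ∀ s : Finset J, (s : Set J) ⊆ S → f s ⊆ S := by
  classical
  let T : ℕ → Set J := fun r => Nat.rec S₀
    (fun _ X => X ∪ ⋃ s ∈ {s : Finset J | (s : Set J) ⊆ X}, f s) r
  have hT : ∀ r, T (r + 1) = T r ∪ ⋃ s ∈ {s : Finset J | (s : Set J) ⊆ T r}, f s := fun _ => rfl
  have hmono : Monotone T := monotone_nat_of_le_succ fun r => by
    rw [hT]; exact Set.subset_union_left
  have hcard : ∀ r : ℕ, #(↥(T r)) ≤ μ := by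
    intro r
    induction r with
    | zero => exact hS
    | succ r ih =>
      rw [hT]
      refine (mk_union_le _ _).trans ?_
      exact (add_le_add ih (mk_biUnion_countable_le _ μ hμ ih f hf)).trans (add_eq_self hμ).le
  refine ⟨⋃ r, T r, Set.subset_iUnion T 0, ?_, ?_⟩
  · have h1 := mk_iUnion_le_lift T
    simp only [lift_uzero, mk_eq_aleph0, lift_aleph0] at h1
    refine h1.trans ?_
    exact (mul_le_mul' hμ (ciSup_le' hcard)).trans (mul_eq_self hμ).le
  · intro s hs
    have h1 : ∃ r, (s : Set J) ⊆ T r := by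
      induction s using Finset.induction_on with
      | empty => exact ⟨0, by simp⟩
      | insert a s _ ih =>
        simp only [Finset.coe_insert, Set.insert_subset_iff] at hs ⊢
        obtain ⟨r, hr⟩ := ih hs.2
        obtain ⟨r', hr'⟩ := Set.mem_iUnion.mp hs.1
        exact ⟨max r r', hmono (le_max_right _ _) hr', hr.trans (hmono (le_max_left _ _))⟩
    obtain ⟨r, hr⟩ := h1
    refine Set.Subset.trans ?_ (Set.subset_iUnion T (r + 1))
    rw [hT]
    refine Set.Subset.trans ?_ Set.subset_union_right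
    exact Set.subset_biUnion_of_mem (u := f) hr

end Pool.Agent.MP_c44838_an
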