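import Mathlib

namespace Pool.Agent.MP_c44838_an

open Matrix

section MU

variable {B : Type*} [CStarAlgebra B]
variable {α β γ : Type*} [Fintype α] [DecidableEq α] [Fintype β] [DecidableEq β]
  [Fintype γ] [DecidableEq γ]

/-- matrix units -/
structure IsMU (e : α → α → B) : Prop where
  mul_eq : ∀ a b c d, e a b * e c d = if b = c then e a d else 0
  star_eq : ∀ a b, star (e a b) = e b a
  sum_eq : ∑ a, e a a = 1

/-- matrix units of a homomorphism -/
noncomputable def mu (φ : Matrix α α ℂ →⋆ₐ[ℂ] B) (a b : α) : B := φ (Matrix.single a b 1)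

lemma isMU_mu (φ : Matrix α α ℂ →⋆ₐ[ℂ] B) : IsMU (mu φ) where
  mul_eq a b c d := by
    unfold mu
    rw [← map_mul]
    split_ifs with h
    · subst h; simp
    · rw [Matrix.single_mul_single_of_ne _ _ _ _ h]; simp
  star_eq a b := by
    unfold mu
    rw [← map_star]
    congr 1
    ext i j
    simp [Matrix.single_apply, and_comm]
  sum_eq := by
    unfold mu
    rw [← map_sum, ← map_one φ]
    congr 1
    ext i j
    rw [Matrix.sum_apply, Finset.sum_eq_single i]
    · simp [Matrix.single_apply, Matrix.one_apply]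
    · intro b _ hb
      simp [hb]
    · simp

lemma hom_eq_sum (φ : Matrix α α ℂ →⋆ₐ[ℂ] B) (x : Matrix α α ℂ) :
    φ x = ∑ a, ∑ b, x a b • mu φ a b := by
  conv_lhs => rw [Matrix.matrix_eq_sum_single x]
  simp only [map_sum, mu]
  refine Finset.sum_congr rfl fun a _ => Finset.sum_congr rfl fun b _ => ?_
  rw [← map_smul]
  congr 1
  simp

/-- the homomorphism given by matrix units -/
noncomputable def IsMU.toHom {e : α → α → B} (h : IsMU e) : Matrix α α ℂ →⋆ₐ[ℂ] B where
  toFun x := ∑ a, ∑ b, x a b • e a b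
  map_one' := by
    simp only [Matrix.one_apply, ite_smul, one_smul, zero_smul, Finset.sum_ite_eq,
      Finset.mem_univ, if_true]
    exact h.sum_eq
  map_mul' x y := by
    simp only [Matrix.mul_apply, Finset.sum_smul]
    rw [Finset.sum_mul]
    refine Finset.sum_congr rfl fun a _ => ?_
    rw [Finset.sum_mul, Finset.sum_comm]
    refine Finset.sum_congr rfl fun b _ => ?_
    rw [Finset.mul_sum]
    symm
    rw [Finset.sum_eq_single b]
    · rw [Finset.mul_sum]
      refine Finset.sum_congr rfl fun c _ => ?_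
      rw [smul_mul_smul_comm, h.mul_eq]; simp
    · intro c _ hc
      rw [Finset.mul_sum]
      refine Finset.sum_eq_zero fun d _ => ?_
      rw [smul_mul_smul_comm, h.mul_eq]; simp [hc.symm]
    · simp
  map_zero' := by simp
  map_add' x y := by
    simp only [Matrix.add_apply, add_smul, Finset.sum_add_distrib]
  commutes' r := by
    simp only [Matrix.algebraMap_matrix_apply, ite_smul, zero_smul, Finset.sum_ite_eq,
      Finset.mem_univ, if_true, Algebra.algebraMap_self, RingHom.id_apply]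
    rw [← Finset.smul_sum, h.sum_eq, Algebra.algebraMap_eq_smul_one]
  map_star' x := by
    simp only [star_sum, star_smul, h.star_eq, Matrix.star_apply]
    rw [Finset.sum_comm]

lemma IsMU.toHom_apply {e : α → α → B} (h : IsMU e) (x : Matrix α α ℂ) :
    h.toHom x = ∑ a, ∑ b, x a b • e a b := rfl

lemma IsMU.mu_toHom {e : α → α → B} (h : IsMU e) (a b : α) : mu h.toHom a b = e a b := by
  unfold mu
  rw [h.toHom_apply]
  simp only [Matrix.single_apply, ite_smul, one_smul, zero_smul]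
  rw [Finset.sum_eq_single a, Finset.sum_eq_single b] <;> simp +contextual [eq_comm]

lemma range_le_iff (φ : Matrix α α ℂ →⋆ₐ[ℂ] B) (R : StarSubalgebra ℂ B) :
    φ.range ≤ R ↔ ∀ a b, mu φ a b ∈ R := by
  constructor
  · intro h a b
    exact h ⟨_, rfl⟩
  · rintro h _ ⟨x, rfl⟩
    change φ x ∈ R
    rw [hom_eq_sum]
    exact sum_mem fun a _ => sum_mem fun b _ => SMulMemClass.smul_mem _ (h a b)

lemma IsMU.prod {e : α → α → B} {f : β → β → B} (he : IsMU e) (hf : IsMU f)
    (hc : ∀ a b c d, e a b * f c d = f c d * e a b) :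
    IsMU (fun (p q : α × β) => e p.1 q.1 * f p.2 q.2) where
  mul_eq p q r s := by
    have : e p.1 q.1 * f p.2 q.2 * (e r.1 s.1 * f r.2 s.2)
        = (e p.1 q.1 * e r.1 s.1) * (f p.2 q.2 * f r.2 s.2) := by
      rw [mul_assoc, ← mul_assoc (f p.2 q.2), ← hc, mul_assoc, mul_assoc]
    rw [this, he.mul_eq, hf.mul_eq]
    by_cases h1 : q.1 = r.1 <;> by_cases h2 : q.2 = r.2 <;> simp [h1, h2, Prod.ext_iff]
  star_eq p q := by
    rw [star_mul, he.star_eq, hf.star_eq, hc]
  sum_eq := by
    rw [Fintype.sum_prod_type]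
    simp only [← Finset.mul_sum, hf.sum_eq, mul_one, he.sum_eq]

lemma IsMU.reindex {e : α → α → B} (he : IsMU e) (g : β ≃ α) :
    IsMU (fun p q => e (g p) (g q)) where
  mul_eq p q r s := by simp [he.mul_eq]
  star_eq p q := he.star_eq _ _
  sum_eq := by rw [← he.sum_eq]; exact Equiv.sum_comp g (fun a => e a a)

lemma IsMU.coarsen {e : (α × β) → (α × β) → B} (he : IsMU e) :
    IsMU (fun a b => ∑ c, e (a, c) (b, c)) where
  mul_eq p q r s := by
    simp only [Finset.sum_mul, Finset.mul_sum, he.mul_eq, Prod.mk.injEq]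
    split_ifs with h
    · simp [h]
    · simp [h]
  star_eq p q := by simp only [star_sum, he.star_eq]
  sum_eq := by rw [← he.sum_eq, Fintype.sum_prod_type]

lemma IsMU.norm_le {e : α → α → B} (he : IsMU e) (a b : α) : ‖e a b‖ ≤ 1 := by
  have h1 : star (e a b) * e a b = e b b := by rw [he.star_eq, he.mul_eq]; simp
  have h2 : star (e b b) * e b b = e b b := by rw [he.star_eq, he.mul_eq]; simp
  have h3 := CStarRing.norm_star_mul_self (x := e a b)
  have h4 := CStarRing.norm_star_mul_self (x := e b b)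
  rw [h1] at h3
  rw [h2] at h4
  have h5 : ‖e b b‖ ≤ 1 := by
    by_contra hh
    push Not at hh
    nlinarith
  nlinarith [norm_nonneg (e a b)]

/-- tensor product of two commuting matrix algebras -/
lemma exists_tensor {a b : ℕ} (φ : Matrix (Fin a) (Fin a) ℂ →⋆ₐ[ℂ] B)
    (ψ : Matrix (Fin b) (Fin b) ℂ →⋆ₐ[ℂ] B) (hc : ∀ x y, φ x * ψ y = ψ y * φ x) :
    ∃ θ : Matrix (Fin (a * b)) (Fin (a * b)) ℂ →⋆ₐ[ℂ] B, θ.range = φ.range ⊔ ψ.range := by
  have h := ((isMU_mu φ).prod (isMU_mu ψ) (fun _ _ _ _ => hc _ _)).reindex finProdFinEquiv.symm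
  refine ⟨h.toHom, le_antisymm ?_ (sup_le ?_ ?_)⟩
  · rw [range_le_iff]
    intro p q
    rw [h.mu_toHom]
    exact mul_mem ((le_sup_left : φ.range ≤ _) ⟨_, rfl⟩) ((le_sup_right : ψ.range ≤ _) ⟨_, rfl⟩)
  · rw [range_le_iff]
    intro p q
    have : mu φ p q = ∑ c, mu h.toHom (finProdFinEquiv (p, c)) (finProdFinEquiv (q, c)) := by
      simp only [h.mu_toHom, Equiv.symm_apply_apply, ← Finset.mul_sum, (isMU_mu ψ).sum_eq, mul_one]
    rw [this]
    exact sum_mem fun c _ => ⟨_, rfl⟩
  · rw [range_le_iff]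
    intro p q
    have : mu ψ p q = ∑ c, mu h.toHom (finProdFinEquiv (c, p)) (finProdFinEquiv (c, q)) := by
      simp only [h.mu_toHom, Equiv.symm_apply_apply, ← Finset.sum_mul, (isMU_mu φ).sum_eq, one_mul]
    rw [this]
    exact sum_mem fun c _ => ⟨_, rfl⟩

/-- a matrix algebra whose size divides -/
lemma exists_of_dvd {a b : ℕ} (hab : a ∣ b) (φ : Matrix (Fin b) (Fin b) ℂ →⋆ₐ[ℂ] B) :
    ∃ θ : Matrix (Fin a) (Fin a) ℂ →⋆ₐ[ℂ] B, θ.range ≤ φ.range := by
  obtain ⟨c, rfl⟩ := hab
  have h := ((isMU_mu φ).reindex finProdFinEquiv).coarsen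
  refine ⟨h.toHom, ?_⟩
  rw [range_le_iff]
  intro p q
  rw [h.mu_toHom]
  exact sum_mem fun c _ => ⟨_, rfl⟩

end MU

end Pool.Agent.MP_c44838_an
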