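import Mathlib
import Pool.Agent.MP_c44838_an.MU

namespace Pool.Agent.MP_c44838_an

open Matrix

section Coef

variable {B : Type*} [CStarAlgebra B]
variable {α β : Type*} [Fintype α] [DecidableEq α] [Fintype β] [DecidableEq β]

/-- coefficients with respect to matrix units -/
noncomputable def coef (e : α → α → B) (a b : α) (x : B) : B := ∑ f, e f a * x * e b f

omit [DecidableEq α] in
lemma coef_add (e : α → α → B) (a b : α) (x y : B) :
    coef e a b (x + y) = coef e a b x + coef e a b y := by
  simp only [coef, mul_add, add_mul, Finset.sum_add_distrib]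

omit [DecidableEq α] in
lemma coef_sub (e : α → α → B) (a b : α) (x y : B) :
    coef e a b (x - y) = coef e a b x - coef e a b y := by
  simp only [coef, mul_sub, sub_mul, Finset.sum_sub_distrib]

omit [DecidableEq α] in
lemma coef_smul (e : α → α → B) (a b : α) (r : ℂ) (x : B) :
    coef e a b (r • x) = r • coef e a b x := by
  simp only [coef, mul_smul_comm, smul_mul_assoc, Finset.smul_sum]

omit [DecidableEq α] in
lemma coef_sum {ι : Type*} (s : Finset ι) (e : α → α → B) (a b : α) (x : ι → B) :
    coef e a b (∑ i ∈ s, x i) = ∑ i ∈ s, coef e a b (x i) := by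
  simp only [coef, Finset.mul_sum, Finset.sum_mul]
  rw [Finset.sum_comm]

variable {e : α → α → B}

lemma coef_mul (he : IsMU e) (a b : α) (x y : B) :
    coef e a b (x * y) = ∑ c, coef e a c x * coef e c b y := by
  have h1 : ∀ c, coef e a c x * coef e c b y = ∑ f, e f a * x * e c c * y * e b f := by
    intro c
    unfold coef
    rw [Finset.sum_mul]
    refine Finset.sum_congr rfl fun f _ => ?_
    rw [Finset.mul_sum, Finset.sum_eq_single f]
    · have : e c f * e f c = e c c := by rw [he.mul_eq]; simp
      rw [← this]; simp only [mul_assoc]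
    · intro g _ hg
      have : e c f * e g c = 0 := by rw [he.mul_eq]; simp [hg.symm]
      calc e f a * x * e c f * (e g c * y * e b g)
          = e f a * x * (e c f * e g c) * y * e b g := by simp only [mul_assoc]
        _ = 0 := by rw [this]; simp
    · simp
  simp only [h1]
  rw [Finset.sum_comm]
  unfold coef
  refine Finset.sum_congr rfl fun f _ => ?_
  rw [← Finset.sum_mul, ← Finset.sum_mul, ← Finset.mul_sum, he.sum_eq]
  simp only [mul_assoc, one_mul]

lemma coef_star (he : IsMU e) (a b : α) (x : B) :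
    star (coef e a b x) = coef e b a (star x) := by
  simp only [coef, star_sum, star_mul, he.star_eq, mul_assoc]

lemma coef_one (he : IsMU e) (a b : α) : coef e a b 1 = if a = b then 1 else 0 := by
  simp only [coef, mul_one, he.mul_eq]
  split_ifs
  · exact he.sum_eq
  · simp

lemma coef_unit (he : IsMU e) (a b c d : α) :
    coef e a b (e c d) = if a = c ∧ d = b then 1 else 0 := by
  simp only [coef, he.mul_eq]
  by_cases h1 : a = c
  · by_cases h2 : d = b
    · simp [h1, h2, he.mul_eq, he.sum_eq]
    · simp [h1, h2, he.mul_eq]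
  · simp [h1]

lemma coef_left {w : B} (hw : ∀ c d, w * e c d = e c d * w) (a b : α) (x : B) :
    coef e a b (w * x) = w * coef e a b x := by
  simp only [coef, Finset.mul_sum]
  refine Finset.sum_congr rfl fun f _ => ?_
  rw [← mul_assoc, ← hw]; simp only [mul_assoc]

lemma coef_right {w : B} (hw : ∀ c d, w * e c d = e c d * w) (a b : α) (x : B) :
    coef e a b (x * w) = coef e a b x * w := by
  simp only [coef, Finset.sum_mul]
  refine Finset.sum_congr rfl fun f _ => ?_
  rw [mul_assoc _ (e b f) w, ← hw]; simp only [mul_assoc]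

/-- the coefficient homomorphism -/
noncomputable def coefHom (he : IsMU e) : B →⋆ₐ[ℂ] Matrix α α B where
  toFun x := Matrix.of fun a b => coef e a b x
  map_one' := by ext a b; simp [coef_one he, Matrix.one_apply]
  map_mul' x y := by ext a b; simp [coef_mul he, Matrix.mul_apply]
  map_zero' := by ext a b; simp [coef]
  map_add' x y := by ext a b; simp [coef_add]
  commutes' r := by
    ext a b
    rw [Algebra.algebraMap_eq_smul_one, Algebra.algebraMap_eq_smul_one]
    simp [coef_smul, coef_one he, Matrix.one_apply]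
  map_star' x := by ext a b; simp [coef_star he, Matrix.star_apply]

lemma coefHom_apply (he : IsMU e) (x : B) (a b : α) : coefHom he x a b = coef e a b x := rfl

lemma norm_coef_le (he : IsMU e) (a b : α) (x : B) : ‖coef e a b x‖ ≤ ‖x‖ := by
  letI := CStarAlgebra.spectralOrder B
  haveI := CStarAlgebra.spectralOrderedRing B
  let Φ : B →⋆ₐ[ℂ] CStarMatrix α α B := coefHom he
  have h1 : ‖Φ x‖ ≤ ‖x‖ := NonUnitalStarAlgHom.norm_apply_le Φ x
  have h2 : ‖Φ x a b‖ ≤ ‖Φ x‖ := CStarMatrix.norm_entry_le_norm
  exact h2.trans h1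

lemma continuous_coef (e : α → α → B) (a b : α) : Continuous (coef e a b) := by
  unfold coef
  fun_prop

/-- the elements all of whose coefficients lie in `R` -/
def coefIn (he : IsMU e) (R : StarSubalgebra ℂ B) : StarSubalgebra ℂ B where
  carrier := {x | ∀ a b, coef e a b x ∈ R}
  mul_mem' := by
    intro x y hx hy a b
    rw [coef_mul he]
    exact sum_mem fun c _ => mul_mem (hx _ _) (hy _ _)
  add_mem' := by
    intro x y hx hy a b
    rw [coef_add]
    exact add_mem (hx _ _) (hy _ _)
  algebraMap_mem' := by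
    intro r a b
    rw [Algebra.algebraMap_eq_smul_one, coef_smul, coef_one he]
    refine SMulMemClass.smul_mem _ ?_
    split_ifs
    · exact one_mem _
    · exact zero_mem _
  star_mem' := by
    intro x hx a b
    have := star_mem (hx b a)
    rwa [coef_star he] at this

lemma mem_coefIn (he : IsMU e) (R : StarSubalgebra ℂ B) (x : B) :
    x ∈ coefIn he R ↔ ∀ a b, coef e a b x ∈ R := Iff.rfl

lemma isClosed_coefIn (he : IsMU e) (R : StarSubalgebra ℂ B) (hR : IsClosed (R : Set B)) :
    IsClosed (coefIn he R : Set B) := by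
  have : (coefIn he R : Set B) = ⋂ a, ⋂ b, coef e a b ⁻¹' (R : Set B) := by
    ext x; simp [mem_coefIn]
  rw [this]
  exact isClosed_iInter fun a => isClosed_iInter fun b => hR.preimage (continuous_coef e a b)

lemma unit_mem_coefIn (he : IsMU e) (R : StarSubalgebra ℂ B) (c d : α) : e c d ∈ coefIn he R := by
  intro a b
  rw [coef_unit he]
  split_ifs
  · exact one_mem _
  · exact zero_mem _

lemma comm_mem_coefIn (he : IsMU e) (R : StarSubalgebra ℂ B) {w : B} (hwR : w ∈ R)
    (hw : ∀ c d, w * e c d = e c d * w) : w ∈ coefIn he R := by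
  intro a b
  rw [← mul_one w, coef_left hw, coef_one he]
  refine mul_mem hwR ?_
  split_ifs
  · exact one_mem _
  · exact zero_mem _

/-- averaging operator -/
noncomputable def avg (e : α → α → B) (x : B) : B :=
  ((Fintype.card α : ℂ)⁻¹) • ∑ b, coef e b b x

omit [DecidableEq α] in
lemma avg_sub (e : α → α → B) (x y : B) : avg e (x - y) = avg e x - avg e y := by
  simp only [avg, coef_sub, Finset.sum_sub_distrib, smul_sub]

omit [DecidableEq α] in
lemma avg_smul (e : α → α → B) (r : ℂ) (x : B) : avg e (r • x) = r • avg e x := by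
  simp only [avg, coef_smul, ← Finset.smul_sum]
  rw [smul_comm]

omit [DecidableEq α] in
lemma avg_sum {ι : Type*} (s : Finset ι) (e : α → α → B) (x : ι → B) :
    avg e (∑ i ∈ s, x i) = ∑ i ∈ s, avg e (x i) := by
  simp only [avg, coef_sum, ← Finset.smul_sum]
  rw [Finset.sum_comm]

lemma norm_avg_le (he : IsMU e) (x : B) : ‖avg e x‖ ≤ ‖x‖ := by
  unfold avg
  rw [norm_smul, norm_inv, Complex.norm_natCast]
  have h1 : ‖∑ b, coef e b b x‖ ≤ Fintype.card α * ‖x‖ := by
    refine (norm_sum_le _ _).trans ?_
    refine (Finset.sum_le_sum fun b _ => norm_coef_le he b b x).trans ?_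
    simp
  rcases Nat.eq_zero_or_pos (Fintype.card α) with h | h
  · simp [h]
  · have : (0 : ℝ) < Fintype.card α := by exact_mod_cast h
    rw [inv_mul_le_iff₀ this]
    exact h1

lemma avg_left {w : B} (hw : ∀ c d, w * e c d = e c d * w) (x : B) :
    avg e (w * x) = w * avg e x := by
  simp only [avg, coef_left hw, ← Finset.mul_sum, mul_smul_comm]

lemma avg_right {w : B} (hw : ∀ c d, w * e c d = e c d * w) (x : B) :
    avg e (x * w) = avg e x * w := by
  simp only [avg, coef_right hw, ← Finset.sum_mul, smul_mul_assoc]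

lemma avg_star (he : IsMU e) (x : B) : star (avg e x) = avg e (star x) := by
  simp only [avg, star_smul, star_sum, coef_star he]
  simp

lemma IsMU.card_ne_zero [Nontrivial B] (he : IsMU e) : Fintype.card α ≠ 0 := by
  intro h
  have : IsEmpty α := Fintype.card_eq_zero_iff.mp h
  have h2 := he.sum_eq
  simp at h2

lemma avg_one [Nontrivial B] (he : IsMU e) : avg e 1 = 1 := by
  have : (Fintype.card α : ℂ) ≠ 0 := by exact_mod_cast he.card_ne_zero
  simp only [avg, coef_one he, if_true, Finset.sum_const, Finset.card_univ]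
  rw [← Nat.cast_smul_eq_nsmul ℂ, smul_smul, inv_mul_cancel₀ this, one_smul]

lemma avg_of_comm [Nontrivial B] (he : IsMU e) {w : B} (hw : ∀ c d, w * e c d = e c d * w) :
    avg e w = w := by
  rw [← mul_one w, avg_left hw, avg_one he]

lemma avg_trace_unit (he : IsMU e) (c d : α) (x : B) :
    avg e (e c d * x) = avg e (x * e c d) := by
  unfold avg
  congr 1
  have h1 : ∑ b, coef e b b (e c d * x) = ∑ f, e f d * x * e c f := by
    rw [Finset.sum_eq_single c]
    · unfold coef
      refine Finset.sum_congr rfl fun f _ => ?_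
      rw [← mul_assoc, he.mul_eq]; simp
    · intro b _ hb
      unfold coef
      refine Finset.sum_eq_zero fun f _ => ?_
      rw [← mul_assoc, he.mul_eq]; simp [hb]
    · simp
  have h2 : ∑ b, coef e b b (x * e c d) = ∑ f, e f d * x * e c f := by
    rw [Finset.sum_eq_single d]
    · unfold coef
      refine Finset.sum_congr rfl fun f _ => ?_
      rw [mul_assoc, mul_assoc, he.mul_eq]; simp [mul_assoc]
    · intro b _ hb
      unfold coef
      refine Finset.sum_eq_zero fun f _ => ?_
      rw [mul_assoc, mul_assoc, he.mul_eq]; simp [hb.symm]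
    · simp
  rw [h1, h2]

lemma avg_trace (θ : Matrix α α ℂ →⋆ₐ[ℂ] B) {y : B} (hy : y ∈ θ.range) (x : B) :
    avg (mu θ) (y * x) = avg (mu θ) (x * y) := by
  obtain ⟨z, rfl⟩ := hy
  change avg (mu θ) (θ z * x) = avg (mu θ) (x * θ z)
  rw [hom_eq_sum]
  simp only [Finset.sum_mul, Finset.mul_sum, avg_sum, smul_mul_assoc, mul_smul_comm, avg_smul,
    avg_trace_unit (isMU_mu θ)]

lemma avg_avg [Nontrivial B] (θ : Matrix α α ℂ →⋆ₐ[ℂ] B) {f : β → β → B} (hf : IsMU f)
    (hfθ : ∀ p q, f p q ∈ θ.range) (x : B) :
    avg (mu θ) (avg f x) = avg (mu θ) x := by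
  have hc : (Fintype.card β : ℂ) ≠ 0 := by exact_mod_cast hf.card_ne_zero
  have h1 : ∀ b g, avg (mu θ) (f g b * x * f b g) = avg (mu θ) (x * f b b) := by
    intro b g
    rw [mul_assoc, avg_trace θ (hfθ _ _), mul_assoc, hf.mul_eq]; simp
  have h2 : avg f x = ((Fintype.card β : ℂ)⁻¹) • ∑ b, ∑ g, f g b * x * f b g := rfl
  rw [h2, avg_smul, avg_sum]
  simp only [avg_sum, h1, Finset.sum_const, Finset.card_univ]
  rw [← Finset.smul_sum, ← avg_sum, ← Finset.mul_sum, hf.sum_eq, mul_one,
    ← Nat.cast_smul_eq_nsmul ℂ, smul_smul, inv_mul_cancel₀ hc, one_smul]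

lemma avg_mem (he : IsMU e) (R : StarSubalgebra ℂ B) {x : B} (hx : x ∈ coefIn he R) :
    avg e x ∈ R :=
  SMulMemClass.smul_mem _ (sum_mem fun b _ => hx b b)

end Coef

end Pool.Agent.MP_c44838_an
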