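import Mathlib

namespace Pool.Agent.MP_c44838_an

universe u v w x

/-- The unital C*-algebra `A` is the C*-tensor product of the matrix algebras of sizes `m i`:
it is nonzero and is the closed star-subalgebra generated by pairwise commuting unital copies
of these matrix algebras. -/
def IsMatrixTensorProduct {I : Type u} (m : I → ℕ) (A : Type v) [CStarAlgebra A] : Prop :=
  Nontrivial A ∧
    ∃ ι : ∀ i : I, Matrix (Fin (m i)) (Fin (m i)) ℂ →⋆ₐ[ℂ] A,
      (∀ i j : I, i ≠ j → ∀ a b, ι i a * ι j b = ι j b * ι i a) ∧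
      (StarAlgebra.adjoin ℂ (⋃ i : I, Set.range (ι i))).topologicalClosure = ⊤

/-- The unital C*-algebra `B` is generated, as a C*-algebra, by commuting unital images of
`A` and `D`. -/
def IsCStarTensorProduct (A : Type v) (D : Type w) (B : Type x)
    [CStarAlgebra A] [CStarAlgebra D] [CStarAlgebra B] : Prop :=
  ∃ (f : A →⋆ₐ[ℂ] B) (g : D →⋆ₐ[ℂ] B),
    (∀ a d, f a * g d = g d * f a) ∧
    (StarAlgebra.adjoin ℂ (Set.range f ∪ Set.range g)).topologicalClosure = ⊤

end Pool.Agent.MP_c44838_an
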