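import Mathlib
import Pool.Agent.MP_c44838_an.Coef

namespace Pool.Agent.MP_c44838_an

open Matrix

/-- finite-dimensional divisibility from approximate matrix units -/
lemma fd_dvd {E : Type*} [NormedAddCommGroup E] [NormedSpace ℂ E] [FiniteDimensional ℂ E]
    {β : Type*} [Fintype β] [DecidableEq β] (P : E →L[ℂ] E) (V W : β → E →L[ℂ] E)
    (hP : P * P = P) (hW : ∀ a, P * W a = W a) (η : ℝ)
    (h1 : ∀ a b, ‖W a * V b - (if a = b then P else 0)‖ ≤ η) (hη : Fintype.card β * η < 1)
    (h2 : ‖∑ a, V a * W a - 1‖ < 1) : Fintype.card β ∣ Module.finrank ℂ E := by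
  set R : Submodule ℂ E := LinearMap.range (P : E →ₗ[ℂ] E) with hR
  have hPR : ∀ w ∈ R, P w = w := by
    rintro _ ⟨z, rfl⟩
    exact congrArg (fun T : E →L[ℂ] E => T z) hP
  have hWR : ∀ a ξ, W a ξ ∈ R := fun a ξ =>
    ⟨W a ξ, congrArg (fun T : E →L[ℂ] E => T ξ) (hW a)⟩
  let A : E →ₗ[ℂ] (β → R) := LinearMap.pi fun a => LinearMap.codRestrict R (W a : E →ₗ[ℂ] E) (hWR a)
  let Bm : (β → R) →ₗ[ℂ] E := ∑ a, (V a : E →ₗ[ℂ] E) ∘ₗ R.subtype ∘ₗ LinearMap.proj a
  have hBm : ∀ w : β → R, Bm w = ∑ a, V a (w a) := by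
    intro w; simp [Bm]
  have hA : Function.Injective A := by
    rw [injective_iff_map_eq_zero]
    intro ξ hξ
    have h3 : ∀ a, W a ξ = 0 := fun a => congrArg Subtype.val (congrFun hξ a)
    have h4 : (∑ a, V a * W a - 1 : E →L[ℂ] E) ξ = -ξ := by
      simp [h3]
    have h5 := (∑ a, V a * W a - 1 : E →L[ℂ] E).le_opNorm ξ
    rw [h4, norm_neg] at h5
    by_contra hne
    have : 0 < ‖ξ‖ := norm_pos_iff.mpr hne
    nlinarith
  have hB : Function.Injective Bm := by
    rw [injective_iff_map_eq_zero]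
    intro w hw
    rw [hBm] at hw
    have h3 : ∀ a, ‖(w a : E)‖ ≤ η * ∑ b, ‖(w b : E)‖ := by
      intro a
      have h4 : ∑ b, (W a * V b - (if a = b then P else 0) : E →L[ℂ] E) (w b) = - (w a : E) := by
        simp only [ContinuousLinearMap.sub_apply, Finset.sum_sub_distrib,
          ContinuousLinearMap.mul_apply]
        rw [← map_sum, hw, map_zero, Finset.sum_eq_single a]
        · simp [hPR _ (w a).2]
        · intro b _ hb; simp [hb.symm]
        · simp
      rw [← norm_neg, ← h4, Finset.mul_sum]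
      refine (norm_sum_le _ _).trans (Finset.sum_le_sum fun b _ => ?_)
      refine (ContinuousLinearMap.le_opNorm _ _).trans ?_
      exact mul_le_mul_of_nonneg_right (h1 a b) (norm_nonneg _)
    have h4 : ∑ a, ‖(w a : E)‖ ≤ Fintype.card β * (η * ∑ b, ‖(w b : E)‖) := by
      refine (Finset.sum_le_sum fun a _ => h3 a).trans ?_
      simp
    have h5 : 0 ≤ ∑ a, ‖(w a : E)‖ := Finset.sum_nonneg fun _ _ => norm_nonneg _
    have h6 : ∑ a, ‖(w a : E)‖ = 0 := by
      by_contra hne
      have : 0 < ∑ a, ‖(w a : E)‖ := lt_of_le_of_ne h5 (Ne.symm hne)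
      nlinarith
    rw [Finset.sum_eq_zero_iff_of_nonneg (fun _ _ => norm_nonneg _)] at h6
    funext a
    exact Subtype.ext (norm_eq_zero.mp (h6 a (Finset.mem_univ _)))
  have e1 := LinearMap.finrank_le_finrank_of_injective hA
  have e2 := LinearMap.finrank_le_finrank_of_injective hB
  have e3 : Module.finrank ℂ (β → R) = Fintype.card β * Module.finrank ℂ R := by
    rw [Module.finrank_pi_fintype]; simp
  exact ⟨Module.finrank ℂ R, by omega⟩

/-- almost projections are close to projections -/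
lemma exists_proj {R : Type*} [CStarAlgebra R] (h : R) (hsa : IsSelfAdjoint h) (η : ℝ)
    (hη0 : 0 ≤ η) (hη : η ≤ 1 / 8) (hh : ‖h * h - h‖ ≤ η) :
    ∃ P : R, star P = P ∧ P * P = P ∧ ‖P - h‖ ≤ 2 * η := by
  let f : ℝ → ℝ := fun t => max 0 (min 1 (2 * t - 1 / 2))
  have hf : Continuous f := by fun_prop
  have hsp : ∀ t ∈ spectrum ℝ h, |t * t - t| ≤ η := by
    intro t ht
    have h1 := norm_apply_le_norm_cfc (fun t : ℝ => t * t - t) h ht
    rw [cfc_sub _ _ h, cfc_mul _ _ h, cfc_id' ℝ h] at h1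
    exact h1.trans hh
  have key : ∀ t ∈ spectrum ℝ h, (f t = 0 ∧ |t| ≤ 2 * η) ∨ (f t = 1 ∧ |1 - t| ≤ 2 * η) := by
    intro t ht
    have h1 := abs_le.mp (hsp t ht)
    by_cases h2 : t ≤ 1 / 2
    · left
      have h3 : |t| ≤ 2 * η := by
        rw [abs_le]; constructor <;> nlinarith
      refine ⟨?_, h3⟩
      have := (abs_le.mp h3).2
      apply max_eq_left
      exact (min_le_right _ _).trans (by linarith)
    · right
      push Not at h2
      have h3 : |1 - t| ≤ 2 * η := by
        rw [abs_le]; constructor <;> nlinarith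
      refine ⟨?_, h3⟩
      have := (abs_le.mp h3).2
      have h4 : min 1 (2 * t - 1 / 2) = 1 := min_eq_left (by linarith)
      simp only [f, h4]
      norm_num
  refine ⟨cfc f h, (cfc_predicate f h : IsSelfAdjoint _), ?_, ?_⟩
  · rw [← cfc_mul f f h]
    apply cfc_congr
    intro t ht
    rcases key t ht with h1 | h1 <;> simp [h1.1]
  · have : cfc f h - h = cfc (fun t => f t - t) h := by
      rw [cfc_sub _ _ h, cfc_id' ℝ h]
    rw [this]
    apply norm_cfc_le (by linarith)
    intro t ht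
    rcases key t ht with h1 | h1
    · simpa [h1.1] using h1.2
    · simpa [h1.1] using h1.2

/-- a character on a commutative closed star subalgebra -/
lemma exists_char {B : Type*} [CStarAlgebra B] [Nontrivial B] (D : StarSubalgebra ℂ B)
    (hD : IsClosed (D : Set B)) (hc : ∀ x ∈ D, ∀ y ∈ D, x * y = y * x) :
    Nonempty (D →⋆ₐ[ℂ] ℂ) := by
  let inst : CStarAlgebra D := StarSubalgebra.cstarAlgebra D
  let inst2 : CommCStarAlgebra D :=
    { inst with mul_comm := fun x y => Subtype.ext (hc _ x.2 _ y.2) }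
  obtain ⟨χ⟩ : Nonempty (WeakDual.characterSpace ℂ D) := inferInstance
  exact ⟨(χ : D →⋆ₐ[ℂ] ℂ)⟩

section Key

variable {B : Type*} [CStarAlgebra B]
variable {α β : Type*} [Fintype α] [DecidableEq α] [Fintype β] [DecidableEq β]

/-- apply a character to the coefficients -/
noncomputable def charHom {e : α → α → B} (he : IsMU e) (D : StarSubalgebra ℂ B)
    (χ : D →⋆ₐ[ℂ] ℂ) : coefIn he D →⋆ₐ[ℂ] Matrix α α ℂ where
  toFun x := Matrix.of fun a b => χ ⟨coef e a b x, x.2 a b⟩
  map_one' := by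
    ext a b
    simp only [OneMemClass.coe_one, coef_one he, of_apply, Matrix.one_apply]
    split_ifs
    · exact map_one χ
    · exact map_zero χ
  map_mul' x y := by
    ext a b
    simp only [of_apply, Matrix.mul_apply, ← map_mul, ← map_sum]
    congr 1
    apply Subtype.ext
    simp [coef_mul he]
  map_zero' := by
    ext a b
    simp only [ZeroMemClass.coe_zero, of_apply, Matrix.zero_apply]
    rw [← map_zero χ]
    congr 1
    apply Subtype.ext
    simp [coef]
  map_add' x y := by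
    ext a b
    simp only [of_apply, Matrix.add_apply, ← map_add]
    congr 1
    apply Subtype.ext
    simp [coef_add]
  commutes' r := by
    ext a b
    simp only [of_apply, Matrix.algebraMap_matrix_apply]
    split_ifs with h
    · rw [← AlgHomClass.commutes χ r]
      congr 1
      apply Subtype.ext
      simp [Algebra.algebraMap_eq_smul_one, coef_smul, coef_one he, h]
    · rw [← map_zero χ]
      congr 1
      apply Subtype.ext
      simp [Algebra.algebraMap_eq_smul_one, coef_smul, coef_one he, h]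
  map_star' x := by
    ext a b
    simp only [of_apply, Matrix.star_apply, ← map_star]
    congr 1
    apply Subtype.ext
    simp [coef_star he]

lemma approx_mul {u v u' v' : B} {δ : ℝ} (hδ : δ ≤ 1) (hu : ‖u - u'‖ ≤ δ) (hv : ‖v - v'‖ ≤ δ)
    (hu' : ‖u'‖ ≤ 1) (hv' : ‖v'‖ ≤ 1) : ‖u * v - u' * v'‖ ≤ 3 * δ := by
  have h0 : 0 ≤ δ := (norm_nonneg _).trans hu
  have h1 : ‖u‖ ≤ 2 := by
    have := norm_add_le (u - u') u'
    simp only [sub_add_cancel] at this
    linarith
  have h2 : u * v - u' * v' = u * (v - v') + (u - u') * v' := by noncomm_ring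
  rw [h2]
  refine (norm_add_le _ _).trans ?_
  have h3 : ‖u * (v - v')‖ ≤ 2 * δ :=
    (norm_mul_le _ _).trans (mul_le_mul h1 hv (norm_nonneg _) (by norm_num))
  have h4 : ‖(u - u') * v'‖ ≤ δ * 1 :=
    (norm_mul_le _ _).trans (mul_le_mul hu hv' (norm_nonneg _) h0)
  linarith

/-- abstract form of the key lemma -/
lemma dvd_of_approx (R : StarSubalgebra ℂ B) (hR : IsClosed (R : Set B))
    (Λ : R →⋆ₐ[ℂ] Matrix α α ℂ) {x : β → β → B} (hx : IsMU x) (o : β) (δ : ℝ)
    (hδ : 1000 * Fintype.card β * δ ≤ 1) (y : β → B) (hyR : ∀ a, y a ∈ R)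
    (hy : ∀ a, ‖y a - x a o‖ ≤ δ) : Fintype.card β ∣ Fintype.card α := by
  have hδ0 : 0 ≤ δ := (norm_nonneg _).trans (hy o)
  have hn : (1 : ℝ) ≤ Fintype.card β := by
    have : 0 < Fintype.card β := Fintype.card_pos_iff.mpr ⟨o⟩
    exact_mod_cast this
  have hδ1 : 1000 * δ ≤ 1 := by nlinarith
  let inst : CStarAlgebra R := StarSubalgebra.cstarAlgebra R
  have hys : ∀ a, ‖star (y a) - x o a‖ ≤ δ := by
    intro a
    rw [← hx.star_eq, ← star_sub, norm_star]; exact hy a
  have hoo : x o o * x o o = x o o := by rw [hx.mul_eq]; simp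
  let h : R := star ⟨y o, hyR o⟩ * ⟨y o, hyR o⟩
  have hh : ‖(h : B) - x o o‖ ≤ 3 * δ := by
    have := approx_mul (by linarith) (hys o) (hy o) (hx.norm_le _ _) (hx.norm_le _ _)
    rwa [hoo] at this
  have hh2 : ‖h * h - h‖ ≤ 12 * δ := by
    have h1 := approx_mul (by linarith) hh hh (hx.norm_le _ _) (hx.norm_le _ _)
    rw [hoo] at h1
    change ‖(h : B) * h - h‖ ≤ _
    have h2 : (h : B) * h - h = ((h : B) * h - x o o) - (h - x o o) := by abel
    rw [h2]
    refine (norm_sub_le _ _).trans ?_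
    linarith
  obtain ⟨P, hPs, hPP, hPh⟩ := exists_proj h (IsSelfAdjoint.star_mul_self _) (12 * δ)
    (by linarith) (by linarith) hh2
  have hPo : ‖(P : B) - x o o‖ ≤ 27 * δ := by
    have h1 : ‖(P : B) - h‖ ≤ 2 * (12 * δ) := hPh
    have h2 : (P : B) - x o o = ((P : B) - h) + (h - x o o) := by abel
    rw [h2]
    refine (norm_add_le _ _).trans ?_
    linarith
  let v : β → R := fun a => ⟨y a, hyR a⟩ * P
  have hv : ∀ a, ‖(v a : B) - x a o‖ ≤ 81 * δ := by
    intro a
    have := approx_mul (by linarith) ((hy a).trans (by linarith : δ ≤ 27 * δ)) hPo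
      (hx.norm_le _ _) (hx.norm_le _ _)
    rw [hx.mul_eq] at this
    simp only [if_true] at this
    change ‖y a * P - x a o‖ ≤ _
    linarith
  have hvs : ∀ a, ‖star (v a : B) - x o a‖ ≤ 81 * δ := by
    intro a
    rw [← hx.star_eq, ← star_sub, norm_star]; exact hv a
  have h1 : ∀ a b, ‖star (v a) * v b - (if a = b then P else 0)‖ ≤ 270 * δ := by
    intro a b
    have h2 := approx_mul (by linarith) (hvs a) (hv b) (hx.norm_le _ _) (hx.norm_le _ _)
    rw [hx.mul_eq] at h2
    split_ifs at h2 ⊢ with hab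
    · change ‖star (v a : B) * v b - P‖ ≤ _
      have h3 : star (v a : B) * v b - P = (star (v a : B) * v b - x o o) - (P - x o o) := by abel
      rw [h3]
      refine (norm_sub_le _ _).trans ?_
      linarith
    · change ‖star (v a : B) * v b - 0‖ ≤ _
      linarith
  have h2 : ‖∑ a, v a * star (v a) - 1‖ ≤ Fintype.card β * (243 * δ) := by
    have h3 : ((∑ a, v a * star (v a) - 1 : R) : B)
        = ∑ a, ((v a : B) * star (v a : B) - x a a) := by
      rw [Finset.sum_sub_distrib, hx.sum_eq]; simp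
    change ‖((∑ a, v a * star (v a) - 1 : R) : B)‖ ≤ _
    rw [h3]
    refine (norm_sum_le _ _).trans ?_
    have h4 : ∀ a, ‖(v a : B) * star (v a : B) - x a a‖ ≤ 243 * δ := by
      intro a
      have h5 := approx_mul (by linarith) (hv a) (hvs a) (hx.norm_le _ _) (hx.norm_le _ _)
      rw [hx.mul_eq] at h5
      simp only [if_true] at h5
      linarith
    refine (Finset.sum_le_sum fun a _ => h4 a).trans ?_
    simp
  let L : R →⋆ₐ[ℂ] (EuclideanSpace ℂ α →L[ℂ] EuclideanSpace ℂ α) :=
    (Matrix.toEuclideanCLM (n := α) (𝕜 := ℂ) : Matrix α α ℂ →⋆ₐ[ℂ] _).comp Λ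
  have hL : ∀ z : R, ‖L z‖ ≤ ‖z‖ := fun z => NonUnitalStarAlgHom.norm_apply_le L z
  have := fd_dvd (L P) (fun a => L (v a)) (fun a => L (star (v a))) (by rw [← map_mul, hPP])
    (by
      intro a
      rw [← map_mul]
      congr 1
      simp only [v, star_mul, hPs, ← mul_assoc, hPP]) (270 * δ)
    (by
      intro a b
      have h3 : L (star (v a)) * L (v b) - (if a = b then L P else 0)
          = L (star (v a) * v b - (if a = b then P else 0)) := by
        split_ifs <;> simp
      rw [h3]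
      exact (hL _).trans (h1 a b))
    (by nlinarith)
    (by
      have h3 : ∑ a, L (v a) * L (star (v a)) - 1 = L (∑ a, v a * star (v a) - 1) := by
        simp
      rw [h3]
      refine (hL _).trans_lt (h2.trans_lt ?_)
      nlinarith)
  simpa using this

/-- the key lemma -/
lemma key_dvd [Nontrivial B] {e : α → α → B} (he : IsMU e) {x : β → β → B} (hx : IsMU x) (o : β)
    (δ : ℝ) (hδ : 1000 * Fintype.card β * δ ≤ 1) (y : β → B) (hy : ∀ a, ‖y a - x a o‖ ≤ δ)
    (Z : Set B) (hZs : ∀ z ∈ Z, star z ∈ Z) (hZc : ∀ z ∈ Z, ∀ w ∈ Z, z * w = w * z)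
    (hyZ : ∀ a c d, coef e c d (y a) ∈ Z) : Fintype.card β ∣ Fintype.card α := by
  let D : StarSubalgebra ℂ B := StarSubalgebra.centralizer ℂ (StarSubalgebra.centralizer ℂ Z)
  have hD : IsClosed (D : Set B) := Set.isClosed_centralizer _
  have hZ1 : Z ⊆ (StarSubalgebra.centralizer ℂ Z : Set B) := by
    intro z hz
    rw [SetLike.mem_coe, StarSubalgebra.mem_centralizer_iff]
    intro g hg
    exact ⟨hZc _ hg _ hz, hZc _ (hZs _ hg) _ hz⟩
  have hD1 : ∀ d ∈ D, d ∈ StarSubalgebra.centralizer ℂ Z := by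
    intro d hd
    rw [StarSubalgebra.mem_centralizer_iff] at hd ⊢
    intro g hg
    exact hd g (hZ1 hg)
  have hDc : ∀ a ∈ D, ∀ b ∈ D, a * b = b * a := by
    intro a ha b hb
    rw [StarSubalgebra.mem_centralizer_iff] at hb
    exact (hb a (hD1 a ha)).1
  have hZD : ∀ z ∈ Z, z ∈ D := by
    intro z hz
    rw [StarSubalgebra.mem_centralizer_iff]
    intro g hg
    have hg' := star_mem hg
    rw [SetLike.mem_coe, StarSubalgebra.mem_centralizer_iff] at hg
    rw [StarSubalgebra.mem_centralizer_iff] at hg'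
    exact ⟨(hg z hz).1.symm, (hg' z hz).1.symm⟩
  obtain ⟨χ⟩ := exists_char D hD hDc
  exact dvd_of_approx (coefIn he D) (isClosed_coefIn he D hD) (charHom he D χ) hx o δ hδ y
    (fun a c d => hZD _ (hyZ a c d)) hy

end Key

end Pool.Agent.MP_c44838_an
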