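import Mathlib
import Pool.Agent.MP_c44838_an.Key

namespace Pool.Agent.MP_c44838_an

open Matrix Filter Topology

section Sys

variable {B : Type*} [CStarAlgebra B] {J : Type*} {m : J → ℕ}

/-- pairwise commuting ranges -/
def Comm (ι : ∀ j, Matrix (Fin (m j)) (Fin (m j)) ℂ →⋆ₐ[ℂ] B) : Prop :=
  ∀ i j : J, i ≠ j → ∀ a b, ι i a * ι j b = ι j b * ι i a

/-- the star subalgebra generated by the factors in `S` -/
noncomputable def BF (ι : ∀ j, Matrix (Fin (m j)) (Fin (m j)) ℂ →⋆ₐ[ℂ] B) (S : Set J) :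
    StarSubalgebra ℂ B :=
  StarAlgebra.adjoin ℂ (⋃ j ∈ S, Set.range (ι j))

variable {ι : ∀ j, Matrix (Fin (m j)) (Fin (m j)) ℂ →⋆ₐ[ℂ] B}

lemma BF_le_iff {S : Set J} {R : StarSubalgebra ℂ B} :
    BF ι S ≤ R ↔ ∀ j ∈ S, ∀ a, ι j a ∈ R := by
  unfold BF
  rw [StarAlgebra.adjoin_le_iff]
  simp [Set.range_subset_iff]

lemma mem_BF {S : Set J} {j : J} (hj : j ∈ S) (a) : ι j a ∈ BF ι S :=
  BF_le_iff.mp le_rfl j hj a

lemma BF_mono {S T : Set J} (h : S ⊆ T) : BF ι S ≤ BF ι T :=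
  BF_le_iff.mpr fun _ hj a => mem_BF (h hj) a

lemma BF_univ : BF ι Set.univ = StarAlgebra.adjoin ℂ (⋃ j, Set.range (ι j)) := by
  simp [BF]

lemma comm_closure_BF {S : Set J} {w : B} (hw : ∀ j ∈ S, ∀ a, w * ι j a = ι j a * w) {y : B}
    (hy : y ∈ (BF ι S).topologicalClosure) : w * y = y * w := by
  have h1 := StarSubalgebra.topologicalClosure_adjoin_le_centralizer_centralizer ℂ _ hy
  rw [StarSubalgebra.mem_centralizer_iff] at h1
  refine (h1 w ?_).1
  rw [SetLike.mem_coe, StarSubalgebra.mem_centralizer_iff]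
  intro g hg
  simp only [Set.mem_iUnion, Set.mem_range] at hg
  obtain ⟨j, hj, a, rfl⟩ := hg
  rw [← map_star]
  exact ⟨(hw j hj _).symm, (hw j hj _).symm⟩

lemma comm_BF {S : Set J} {w : B} (hw : ∀ j ∈ S, ∀ a, w * ι j a = ι j a * w) {y : B}
    (hy : y ∈ BF ι S) : w * y = y * w :=
  comm_closure_BF hw (StarSubalgebra.le_topologicalClosure _ hy)

lemma closure_BF_comm (hc : Comm ι) {S : Set J} {y : B} (hy : y ∈ (BF ι S).topologicalClosure)
    {j : J} (hj : j ∉ S) (a) : y * ι j a = ι j a * y :=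
  (comm_closure_BF (fun i hi b => hc j i (fun h => hj (h ▸ hi)) a b) hy).symm

lemma BF_comm (hc : Comm ι) {S : Set J} {y : B} (hy : y ∈ BF ι S)
    {j : J} (hj : j ∉ S) (a) : y * ι j a = ι j a * y :=
  closure_BF_comm hc (StarSubalgebra.le_topologicalClosure _ hy) hj a

lemma exists_block' (hc : Comm ι) (F : Finset J) :
    ∃ (N : ℕ) (θ : Matrix (Fin N) (Fin N) ℂ →⋆ₐ[ℂ] B), N = ∏ j ∈ F, m j ∧ θ.range = BF ι F := by
  classical
  induction F using Finset.induction_on with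
  | empty =>
    have h : IsMU (fun _ _ : Fin 1 => (1 : B)) :=
      ⟨fun a b c d => by simp [Subsingleton.elim b c], fun _ _ => by simp, by simp⟩
    refine ⟨1, h.toHom, by simp, le_antisymm ?_ (BF_le_iff.mpr (by simp))⟩
    rw [range_le_iff]
    intro a b
    rw [h.mu_toHom]
    exact one_mem _
  | insert j F hj ih =>
    obtain ⟨N, θ, hN, hθ⟩ := ih
    obtain ⟨θ', hθ'⟩ := exists_tensor (ι j) θ (fun x y => by
      have : θ y ∈ BF ι F := hθ ▸ ⟨y, rfl⟩
      exact (BF_comm hc this (by simpa using hj) x).symm)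
    refine ⟨m j * N, θ', by rw [Finset.prod_insert hj, hN], ?_⟩
    rw [hθ', hθ]
    refine le_antisymm (sup_le ?_ (BF_mono (by simp))) ?_
    · rintro _ ⟨a, rfl⟩
      exact mem_BF (by simp) a
    · rw [BF_le_iff]
      intro i hi a
      rcases (by simpa using hi : i = j ∨ i ∈ F) with rfl | hi
      · exact (le_sup_left : (ι i).range ≤ _) ⟨a, rfl⟩
      · exact (le_sup_right : BF ι F ≤ _) (mem_BF (by simpa using hi) a)

lemma exists_block (hc : Comm ι) (F : Finset J) :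
    ∃ θ : Matrix (Fin (∏ j ∈ F, m j)) (Fin (∏ j ∈ F, m j)) ℂ →⋆ₐ[ℂ] B, θ.range = BF ι F := by
  obtain ⟨N, θ, rfl, h⟩ := exists_block' hc F
  exact ⟨θ, h⟩

lemma exists_finset_of_mem {S : Set J} {x : B} (hx : x ∈ BF ι S) :
    ∃ G : Finset J, (G : Set J) ⊆ S ∧ x ∈ BF ι G := by
  classical
  unfold BF at hx
  induction hx using StarAlgebra.adjoin_induction with
  | mem x hx =>
    simp only [Set.mem_iUnion, Set.mem_range] at hx
    obtain ⟨j, hj, a, rfl⟩ := hx
    exact ⟨{j}, by simpa using hj, mem_BF (by simp) a⟩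
  | algebraMap r => exact ⟨∅, by simp, algebraMap_mem _ r⟩
  | add x y _ _ hx hy =>
    obtain ⟨F, hF, hx⟩ := hx
    obtain ⟨G, hG, hy⟩ := hy
    exact ⟨F ∪ G, by simp [hF, hG], add_mem (BF_mono (by simp) hx) (BF_mono (by simp) hy)⟩
  | mul x y _ _ hx hy =>
    obtain ⟨F, hF, hx⟩ := hx
    obtain ⟨G, hG, hy⟩ := hy
    exact ⟨F ∪ G, by simp [hF, hG], mul_mem (BF_mono (by simp) hx) (BF_mono (by simp) hy)⟩
  | star x _ hx =>
    obtain ⟨F, hF, hx⟩ := hx
    exact ⟨F, hF, star_mem hx⟩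

lemma exists_approx {S : Set J} {x : B} (hx : x ∈ (BF ι S).topologicalClosure) {ε : ℝ}
    (hε : 0 < ε) : ∃ G : Finset J, (G : Set J) ⊆ S ∧ ∃ u ∈ BF ι G, ‖x - u‖ < ε := by
  have h1 : x ∈ closure (BF ι S : Set B) := hx
  obtain ⟨u, hu, hxu⟩ := Metric.mem_closure_iff.mp h1 ε hε
  obtain ⟨G, hG, hu⟩ := exists_finset_of_mem hu
  exact ⟨G, hG, u, hu, by rwa [← dist_eq_norm]⟩

lemma BF_le_coefIn (hc : Comm ι) {α : Type*} [Fintype α] [DecidableEq α] {t : Set J}
    (θ : Matrix α α ℂ →⋆ₐ[ℂ] B) (hθ : θ.range = BF ι t) (H : Set J) (R : StarSubalgebra ℂ B)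
    (hR : BF ι (H \ t) ≤ R) : BF ι H ≤ coefIn (isMU_mu θ) R := by
  rw [BF_le_iff]
  intro j hj a
  by_cases hjt : j ∈ t
  · have h1 : ι j a ∈ θ.range := hθ ▸ mem_BF hjt a
    refine (range_le_iff θ _).mpr (fun c d => unit_mem_coefIn _ _ c d) h1
  · refine comm_mem_coefIn _ _ (hR (mem_BF (S := H \ t) ⟨hj, hjt⟩ a)) fun c d => ?_
    have h1 : mu θ c d ∈ BF ι t := by rw [← hθ]; exact ⟨_, rfl⟩
    exact (BF_comm hc h1 hjt a).symm

lemma exists_EE [Nontrivial B] (hc : Comm ι) (hgen : (BF ι Set.univ).topologicalClosure = ⊤)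
    (U : Set J) : ∃ EE : B → B, (∀ x y, ‖EE x - EE y‖ ≤ ‖x - y‖) ∧
      (∀ x, EE x ∈ (BF ι Uᶜ).topologicalClosure) ∧
      (∀ w, (∀ j ∈ U, ∀ a, w * ι j a = ι j a * w) →
        ∀ x, EE (w * x) = w * EE x ∧ EE (x * w) = EE x * w) ∧
      (∀ x, star (EE x) = EE (star x)) ∧ EE 1 = 1 := by
  classical
  choose θ hθ using exists_block hc
  let E : Finset J → B → B := fun F => avg (mu (θ (F.filter (· ∈ U))))
  have hmu : ∀ (F : Finset J) c d, mu (θ F) c d ∈ BF ι F := fun F c d => by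
    rw [← hθ F]; exact ⟨_, rfl⟩
  have hE1 : ∀ F x y, ‖E F x - E F y‖ ≤ ‖x - y‖ := by
    intro F x y
    simp only [E]
    rw [← avg_sub]
    exact norm_avg_le (isMU_mu _) _
  have hcomm : ∀ w, (∀ j ∈ U, ∀ a, w * ι j a = ι j a * w) → ∀ (F : Finset J) c d,
      w * mu (θ (F.filter (· ∈ U))) c d = mu (θ (F.filter (· ∈ U))) c d * w := by
    intro w hw F c d
    refine comm_BF (fun j hj a => hw j ?_ a) (hmu _ c d)
    simp only [Finset.coe_filter, Set.mem_ofPred_eq] at hj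
    exact hj.2
  have hE2 : ∀ (G : Finset J), ∀ x ∈ BF ι G, E G x ∈ BF ι Uᶜ := by
    intro G x hx
    refine avg_mem (isMU_mu _) _ (BF_le_coefIn hc _ (hθ _) G _ (BF_mono ?_) hx)
    intro j hj
    simp only [Finset.coe_filter, Set.mem_sdiff, Finset.mem_coe, Set.mem_ofPred_eq, not_and] at hj
    exact hj.2 hj.1
  have hE3 : ∀ (G : Finset J), ∀ x ∈ BF ι G, ∀ F, G ≤ F → E F x = E G x := by
    intro G x hx F hGF
    have h1 : E F (E G x) = E F x := by
      refine avg_avg _ (isMU_mu _) (fun p q => ?_) x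
      rw [hθ]
      refine BF_mono ?_ (hmu _ p q)
      exact_mod_cast Finset.filter_subset_filter _ hGF
    rw [← h1]
    refine avg_of_comm (isMU_mu _) (hcomm _ (fun j hj a => ?_) F)
    exact BF_comm hc (hE2 G x hx) (by simpa using hj) a
  have hall : ∀ x : B, x ∈ (BF ι Set.univ).topologicalClosure := fun x => by
    rw [hgen]; trivial
  have hlim : ∀ x, ∃ y, Tendsto (fun F => E F x) atTop (𝓝 y) := by
    intro x
    apply cauchySeq_tendsto_of_complete
    rw [Metric.cauchySeq_iff]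
    intro ε hε
    obtain ⟨G, -, u, hu, hxu⟩ := exists_approx (hall x) (half_pos hε)
    refine ⟨G, fun F hF F' hF' => ?_⟩
    rw [dist_eq_norm]
    have h1 : E F x - E F' x = (E F x - E F u) - (E F' x - E F' u) := by
      rw [hE3 G u hu F hF, hE3 G u hu F' hF']; abel
    rw [h1]
    refine (norm_sub_le _ _).trans_lt ?_
    have := hE1 F x u
    have := hE1 F' x u
    linarith
  choose EE hEE using hlim
  have hL : ∀ x y, ‖EE x - EE y‖ ≤ ‖x - y‖ := fun x y =>
    le_of_tendsto' ((hEE x).sub (hEE y)).norm fun F => hE1 F x y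
  refine ⟨EE, hL, ?_, ?_, ?_, ?_⟩
  · intro x
    change EE x ∈ closure (BF ι Uᶜ : Set B)
    rw [Metric.mem_closure_iff]
    intro ε hε
    obtain ⟨G, -, u, hu, hxu⟩ := exists_approx (hall x) hε
    have h1 : EE u = E G u := by
      refine tendsto_nhds_unique (hEE u) (tendsto_const_nhds.congr' ?_)
      filter_upwards [eventually_ge_atTop G] with F hF
      exact (hE3 G u hu F hF).symm
    refine ⟨EE u, h1 ▸ hE2 G u hu, ?_⟩
    rw [dist_eq_norm]
    exact (hL x u).trans_lt hxu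
  · intro w hw x
    constructor
    · refine tendsto_nhds_unique (hEE _) (((hEE x).const_mul w).congr fun F => ?_)
      exact (avg_left (hcomm w hw F) x).symm
    · refine tendsto_nhds_unique (hEE _) (((hEE x).mul_const w).congr fun F => ?_)
      exact (avg_right (hcomm w hw F) x).symm
  · intro x
    refine tendsto_nhds_unique ((hEE x).star.congr fun F => ?_) (hEE _)
    exact avg_star (isMU_mu _) x
  · refine tendsto_nhds_unique (hEE _) (tendsto_const_nhds.congr fun F => ?_)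
    exact (avg_one (isMU_mu _)).symm

end Sys

end Pool.Agent.MP_c44838_an
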