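import Mathlib
import Pool.Agent.MP_c44838_an.Sys
import Pool.Agent.MP_c44838_an.Closure

namespace Pool.Agent.MP_c44838_an

open Matrix Filter Topology Cardinal

universe u

variable {B : Type*} [CStarAlgebra B]

lemma continuous_hom {α : Type*} [Fintype α] [DecidableEq α] (θ : Matrix α α ℂ →⋆ₐ[ℂ] B) :
    Continuous θ := by
  have : (θ : Matrix α α ℂ → B) = fun x => ∑ a, ∑ b, x a b • mu θ a b := by
    funext x; exact hom_eq_sum θ x
  rw [this]
  fun_prop

lemma exists_countable_dense_BF {J : Type*} {m : J → ℕ}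
    {ι : ∀ j, Matrix (Fin (m j)) (Fin (m j)) ℂ →⋆ₐ[ℂ] B} (hc : Comm ι) (s : Finset J) :
    ∃ c : Set B, c.Countable ∧ (BF ι s : Set B) ⊆ closure c := by
  obtain ⟨θ, hθ⟩ := exists_block hc s
  have : TopologicalSpace.SeparableSpace
      (Matrix (Fin (∏ j ∈ s, m j)) (Fin (∏ j ∈ s, m j)) ℂ) :=
    inferInstanceAs (TopologicalSpace.SeparableSpace
      (Fin (∏ j ∈ s, m j) → Fin (∏ j ∈ s, m j) → ℂ))
  have h1 : TopologicalSpace.IsSeparable (Set.range θ) :=
    TopologicalSpace.isSeparable_range (continuous_hom θ)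
  obtain ⟨c, hc1, hc2⟩ := h1
  refine ⟨c, hc1, ?_⟩
  rw [← hθ]
  exact hc2

lemma exists_countable_support {J : Type*} {m : J → ℕ}
    {ι : ∀ j, Matrix (Fin (m j)) (Fin (m j)) ℂ →⋆ₐ[ℂ] B}
    (hgen : (BF ι Set.univ).topologicalClosure = ⊤) (x : B) :
    ∃ T : Set J, T.Countable ∧ x ∈ (BF ι T).topologicalClosure := by
  have hx : x ∈ (BF ι Set.univ).topologicalClosure := by rw [hgen]; trivial
  have h1 : ∀ r : ℕ, ∃ G : Finset J, ∃ u ∈ BF ι G, ‖x - u‖ < 1 / ((r : ℝ) + 1) := by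
    intro r
    obtain ⟨G, -, h⟩ := exists_approx hx (Nat.one_div_pos_of_nat (n := r))
    exact ⟨G, h⟩
  choose G u hu hxu using h1
  refine ⟨⋃ r, (G r : Set J), Set.countable_iUnion fun r => (G r).countable_toSet, ?_⟩
  change x ∈ closure (BF ι _ : Set B)
  rw [Metric.mem_closure_iff]
  intro ε hε
  obtain ⟨r, hr⟩ := exists_nat_one_div_lt hε
  refine ⟨u r, BF_mono (Set.subset_iUnion (fun r => (G r : Set J)) r) (hu r), ?_⟩
  rw [dist_eq_norm]
  exact (hxu r).trans hr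

lemma norm_comm_sub_le (z q e : B) (he : ‖e‖ ≤ 1) :
    ‖z * e - e * z‖ ≤ ‖q * e - e * q‖ + 2 * ‖z - q‖ := by
  have h1 : z * e - e * z = (q * e - e * q) + ((z - q) * e - e * (z - q)) := by noncomm_ring
  rw [h1]
  refine (norm_add_le _ _).trans ?_
  have h2 := norm_sub_le ((z - q) * e) (e * (z - q))
  have h3 := norm_mul_le (z - q) e
  have h4 := norm_mul_le e (z - q)
  have h5 := norm_nonneg (z - q)
  nlinarith

lemma no_embed_uncountable [Nontrivial B] {J K : Type u} {m : J → ℕ}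
    {ι : ∀ j, Matrix (Fin (m j)) (Fin (m j)) ℂ →⋆ₐ[ℂ] B} (hc : Comm ι)
    (hgen : (BF ι Set.univ).topologicalClosure = ⊤) {n : ℕ}
    (φ : K → Matrix (Fin n) (Fin n) ℂ →⋆ₐ[ℂ] B) (hφ : Comm (m := fun _ => n) φ)
    {p : ℕ} (hp : p.Prime) (hpn : p ∣ n) (μ : Cardinal.{u}) (hμ : ℵ₀ ≤ μ)
    (hS₀ : #{j | p ∣ m j} ≤ μ) (hK : μ < #K) : False := by
  classical
  have hKne : Nonempty K := by
    rw [← mk_ne_zero_iff]
    exact (lt_of_le_of_lt zero_le hK).ne'
  choose c hc1 hc2 using exists_countable_dense_BF hc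
  have hκ : ∀ (q : B) (r : ℚ), ∃ β : K,
      (∃ k a b, (r : ℝ) < ‖q * mu (φ k) a b - mu (φ k) a b * q‖) →
        ∃ a b, (r : ℝ) < ‖q * mu (φ β) a b - mu (φ β) a b * q‖ := by
    intro q r
    by_cases h : ∃ k a b, (r : ℝ) < ‖q * mu (φ k) a b - mu (φ k) a b * q‖
    · obtain ⟨k, hk⟩ := h
      exact ⟨k, fun _ => hk⟩
    · exact ⟨Classical.arbitrary K, fun h' => absurd h' h⟩
  choose κ hκ using hκ
  let Kf : Finset J → Set K := fun s => ⋃ q ∈ c s, Set.range (κ q)
  have hKf : ∀ s, (Kf s).Countable := fun s =>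
    (hc1 s).biUnion fun q _ => Set.countable_range _
  choose T hT1 hT2 using exists_countable_support hgen
  let Jf : K → Set J := fun k => ⋃ a, ⋃ b, T (mu (φ k) a b)
  have hJf : ∀ k, (Jf k).Countable := fun k =>
    Set.countable_iUnion fun a => Set.countable_iUnion fun b => hT1 _
  have hJf2 : ∀ k a, φ k a ∈ (BF ι (Jf k)).topologicalClosure := by
    intro k a
    refine (range_le_iff (φ k) _).mpr (fun a b => ?_) ⟨a, rfl⟩
    refine StarSubalgebra.topologicalClosure_mono (BF_mono ?_) (hT2 _)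
    exact Set.subset_iUnion₂ (s := fun a b => T (mu (φ k) a b)) a b
  obtain ⟨S, hS0, hSμ, hScl⟩ := exists_closed {j | p ∣ m j} μ hμ hS₀
    (fun s => ⋃ k ∈ Kf s, Jf k) (fun s => (hKf s).biUnion fun k _ => hJf k)
  let K0 : Set K := ⋃ s ∈ {s : Finset J | (s : Set J) ⊆ S}, Kf s
  have hK0 : #K0 ≤ μ := mk_biUnion_countable_le S μ hμ hSμ Kf hKf
  obtain ⟨α, hα⟩ : ∃ α, α ∉ K0 := by
    by_contra h
    push Not at h
    have : K0 = Set.univ := Set.eq_univ_of_forall h
    rw [this, mk_univ] at hK0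
    exact absurd hK (not_lt.mpr hK0)
  have claim1 : ∀ β ∈ K0, ∀ a, φ β a ∈ (BF ι S).topologicalClosure := by
    intro β hβ a
    simp only [K0, Set.mem_iUnion, Set.mem_ofPred_eq] at hβ
    obtain ⟨s, hs, hβ⟩ := hβ
    refine StarSubalgebra.topologicalClosure_mono (BF_mono ?_) (hJf2 β a)
    exact (Set.subset_biUnion_of_mem (u := Jf) hβ).trans (hScl s hs)
  have claim2 : ∀ z ∈ (BF ι S).topologicalClosure, (∀ β ∈ K0, ∀ a, z * φ β a = φ β a * z) →
      ∀ k a b, z * mu (φ k) a b = mu (φ k) a b * z := by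
    intro z hz hzc k a b
    by_contra hne
    have hρ : 0 < ‖z * mu (φ k) a b - mu (φ k) a b * z‖ := norm_pos_iff.mpr (sub_ne_zero.mpr hne)
    set ρ := ‖z * mu (φ k) a b - mu (φ k) a b * z‖ with hρdef
    obtain ⟨s, hs, w, hw, hzw⟩ := exists_approx hz (by positivity : 0 < ρ / 16)
    obtain ⟨q, hq, hwq⟩ := Metric.mem_closure_iff.mp (hc2 s hw) (ρ / 16) (by positivity)
    rw [dist_eq_norm] at hwq
    have hzq : ‖z - q‖ < ρ / 8 := by
      have : z - q = (z - w) + (w - q) := by abel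
      rw [this]
      refine (norm_add_le _ _).trans_lt ?_
      linarith
    obtain ⟨r, hr1, hr2⟩ := exists_rat_btwn (by linarith : ρ / 4 < 3 * ρ / 4)
    have h1 := norm_comm_sub_le z q (mu (φ k) a b) ((isMU_mu _).norm_le a b)
    obtain ⟨a', b', h2⟩ := hκ q r ⟨k, a, b, by linarith⟩
    have hβ : κ q r ∈ K0 := by
      simp only [K0, Kf, Set.mem_iUnion, Set.mem_ofPred_eq]
      exact ⟨s, hs, q, hq, r, rfl⟩
    have h3 := norm_comm_sub_le q z (mu (φ (κ q r)) a' b') ((isMU_mu _).norm_le a' b')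
    have h4 : z * mu (φ (κ q r)) a' b' - mu (φ (κ q r)) a' b' * z = 0 :=
      sub_eq_zero.mpr (hzc _ hβ _)
    rw [h4, norm_zero, norm_sub_rev q z] at h3
    linarith
  have hx := isMU_mu (φ α)
  set x := mu (φ α) with hxdef
  have hn : n ≠ 0 := by simpa using hx.card_ne_zero
  have hn' : (0 : ℝ) < n := by exact_mod_cast Nat.pos_of_ne_zero hn
  let o : Fin n := ⟨0, Nat.pos_of_ne_zero hn⟩
  have hall : ∀ x : B, x ∈ (BF ι Set.univ).topologicalClosure := fun x => by
    rw [hgen]; trivial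
  have happ : ∀ a, ∃ G : Finset J, ∃ u ∈ BF ι G, ‖x a o - u‖ < 1 / (2000 * n) := by
    intro a
    obtain ⟨G, -, h⟩ := exists_approx (hall (x a o)) (by positivity : (0 : ℝ) < 1 / (2000 * n))
    exact ⟨G, h⟩
  choose G u hu hxu using happ
  let t : Finset J := (Finset.univ.biUnion G).filter (· ∉ S)
  obtain ⟨θ, hθ⟩ := exists_block hc t
  obtain ⟨EE, hE1, hE2, hE3, hE4, hE5⟩ := exists_EE hc hgen (S ∪ t)ᶜ
  rw [compl_compl] at hE2
  have he := isMU_mu θ
  have hmuθ : ∀ c d, mu θ c d ∈ BF ι t := fun c d => by rw [← hθ]; exact ⟨_, rfl⟩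
  have hL1 : ∀ c d y, coef (mu θ) c d (EE y) ∈ (BF ι S).topologicalClosure := by
    intro c d y
    have h1 : BF ι (S ∪ t) ≤ coefIn he (BF ι S).topologicalClosure := by
      refine BF_le_coefIn hc θ hθ _ _ ((BF_mono ?_).trans (StarSubalgebra.le_topologicalClosure _))
      rintro j ⟨hj | hj, hj'⟩
      · exact hj
      · exact absurd hj hj'
    exact StarSubalgebra.topologicalClosure_minimal h1
      (isClosed_coefIn he _ (StarSubalgebra.isClosed_topologicalClosure _)) (hE2 y) c d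
  have hL2 : ∀ w ∈ (BF ι S).topologicalClosure, ∀ y, w * y = y * w → ∀ c d,
      w * coef (mu θ) c d (EE y) = coef (mu θ) c d (EE y) * w := by
    intro w hw y hwy c d
    have h1 := hE3 w (fun j hj a => closure_BF_comm hc hw (fun h => hj (Or.inl h)) a) y
    have h2 : ∀ c d, w * mu θ c d = mu θ c d * w := by
      intro c d
      refine comm_BF (fun j hj a => closure_BF_comm hc hw ?_ a) (hmuθ c d)
      simp only [t, Finset.coe_filter, Set.mem_ofPred_eq] at hj
      exact hj.2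
    rw [← coef_left h2, ← coef_right h2, ← h1.1, ← h1.2, hwy]
  have hdvd := key_dvd he hx o (1 / (1000 * n))
    (by simp only [Fintype.card_fin]; field_simp; rfl) (fun a => EE (x a o))
    (by
      intro a
      have h1 : EE (u a) = u a := by
        have h2 := (hE3 (u a) (fun j hj b => BF_comm hc (hu a) (fun h => hj ?_) b) 1).1
        · rwa [mul_one, hE5, mul_one] at h2
        · by_cases hjS : j ∈ S
          · exact Or.inl hjS
          · right
            simp only [t, Finset.coe_filter, Set.mem_ofPred_eq, Finset.mem_biUnion]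
            exact ⟨⟨a, Finset.mem_univ _, h⟩, hjS⟩
      have h2 : EE (x a o) - x a o = (EE (x a o) - EE (u a)) - (x a o - u a) := by
        rw [h1]; abel
      rw [h2]
      refine (norm_sub_le _ _).trans ?_
      have h3 := hE1 (x a o) (u a)
      have h4 := hxu a
      have h5 : (1 : ℝ) / (1000 * n) = 1 / (2000 * n) + 1 / (2000 * n) := by
        field_simp; norm_num
      linarith)
    {z | ∃ a b c d, z = coef (mu θ) c d (EE (x a b))}
    (by
      rintro _ ⟨a, b, c, d, rfl⟩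
      exact ⟨b, a, d, c, by rw [coef_star he, hE4, hx.star_eq]⟩)
    (by
      rintro _ ⟨a, b, c, d, rfl⟩ _ ⟨a', b', c', d', rfl⟩
      refine hL2 _ (hL1 _ _ _) _ (claim2 _ (hL1 _ _ _) (fun β hβ y => ?_) α a' b') c' d'
      refine (hL2 _ (claim1 β hβ y) _ ?_ c d).symm
      exact hφ β α (fun h => hα (h ▸ hβ)) _ _)
    (fun a c d => ⟨a, o, c, d, rfl⟩)
  simp only [Fintype.card_fin] at hdvd
  obtain ⟨j, hj, hpj⟩ := (Nat.Prime.prime hp).exists_mem_finset_dvd (hpn.trans hdvd)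
  simp only [t, Finset.mem_filter] at hj
  exact hj.2 (hS0 hpj)

lemma dvd_of_MU [Nontrivial B] {J : Type*} {m : J → ℕ}
    {ι : ∀ j, Matrix (Fin (m j)) (Fin (m j)) ℂ →⋆ₐ[ℂ] B} (hc : Comm ι)
    (hgen : (BF ι Set.univ).topologicalClosure = ⊤) {n : ℕ}
    (φ : Matrix (Fin n) (Fin n) ℂ →⋆ₐ[ℂ] B) : ∃ G : Finset J, n ∣ ∏ j ∈ G, m j := by
  classical
  have hx := isMU_mu φ
  set x := mu φ with hxdef
  have hn : n ≠ 0 := by simpa using hx.card_ne_zero
  have hn' : (0 : ℝ) < n := by exact_mod_cast Nat.pos_of_ne_zero hn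
  let o : Fin n := ⟨0, Nat.pos_of_ne_zero hn⟩
  have hall : ∀ x : B, x ∈ (BF ι Set.univ).topologicalClosure := fun x => by
    rw [hgen]; trivial
  have happ : ∀ a, ∃ G : Finset J, ∃ u ∈ BF ι G, ‖x a o - u‖ < 1 / (1000 * n) := by
    intro a
    obtain ⟨G, -, h⟩ := exists_approx (hall (x a o)) (by positivity : (0 : ℝ) < 1 / (1000 * n))
    exact ⟨G, h⟩
  choose G u hu hxu using happ
  obtain ⟨θ, hθ⟩ := exists_block hc (Finset.univ.biUnion G)
  have he := isMU_mu θ
  have hdvd := key_dvd he hx o (1 / (1000 * n))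
    (by simp only [Fintype.card_fin]; field_simp; rfl) u
    (fun a => by rw [norm_sub_rev]; exact (hxu a).le) (BF ι ∅ : Set B)
    (fun z hz => star_mem hz)
    (fun z _ w hw => comm_BF (by simp) hw)
    (by
      intro a c d
      refine BF_le_coefIn hc θ hθ (G a) _ (BF_mono ?_) (hu a) c d
      rintro j ⟨hj, hj'⟩
      exact hj' (by simpa using ⟨a, hj⟩))
  simp only [Fintype.card_fin] at hdvd
  exact ⟨_, hdvd⟩

lemma no_embed_finite [Nontrivial B] {J K : Type*} [Infinite K] {m : J → ℕ}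
    {ι : ∀ j, Matrix (Fin (m j)) (Fin (m j)) ℂ →⋆ₐ[ℂ] B} (hc : Comm ι)
    (hgen : (BF ι Set.univ).topologicalClosure = ⊤) {n : ℕ}
    (φ : K → Matrix (Fin n) (Fin n) ℂ →⋆ₐ[ℂ] B) (hφ : Comm (m := fun _ => n) φ)
    {p : ℕ} (hp : p.Prime) (hpn : p ∣ n) (hS₀ : {j | p ∣ m j}.Finite) : False := by
  classical
  have hm : ∀ j, m j ≠ 0 := fun j => by simpa using (isMU_mu (ι j)).card_ne_zero
  set M := ∏ j ∈ hS₀.toFinset, m j with hM
  have hM0 : M ≠ 0 := Finset.prod_ne_zero_iff.mpr fun j _ => hm j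
  obtain ⟨F, hF⟩ := Infinite.exists_subset_card_eq K M
  obtain ⟨θ, -⟩ := exists_block hφ F
  obtain ⟨G, hG⟩ := dvd_of_MU hc hgen θ
  rw [Finset.prod_const, hF] at hG
  have h1 : p ^ M ∣ ∏ j ∈ G, m j := (pow_dvd_pow_of_dvd hpn M).trans hG
  rw [← Finset.prod_filter_mul_prod_filter_not G (fun j => p ∣ m j)] at h1
  have h2 : Nat.Coprime (p ^ M) (∏ j ∈ G.filter (fun j => ¬ p ∣ m j), m j) := by
    refine Nat.Coprime.pow_left _ (Nat.Coprime.prod_right fun j hj => ?_)
    exact (Nat.Prime.coprime_iff_not_dvd hp).mpr (Finset.mem_filter.mp hj).2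
  have h3 := h2.dvd_of_dvd_mul_right h1
  have h4 : ∏ j ∈ G.filter (fun j => p ∣ m j), m j ∣ M := by
    refine Finset.prod_dvd_prod_of_subset _ _ _ fun j hj => ?_
    simpa using (Finset.mem_filter.mp hj).2
  have h5 := Nat.le_of_dvd (Nat.pos_of_ne_zero hM0) (h3.trans h4)
  have h6 : M < p ^ M := Nat.lt_pow_self hp.one_lt
  omega

/-- the invariant: the number of factors of size divisible by `p` -/
lemma card_le_of_comm [Nontrivial B] {J K : Type u} [Infinite K] {m : J → ℕ}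
    {ι : ∀ j, Matrix (Fin (m j)) (Fin (m j)) ℂ →⋆ₐ[ℂ] B} (hc : Comm ι)
    (hgen : (BF ι Set.univ).topologicalClosure = ⊤) {n : ℕ}
    (φ : K → Matrix (Fin n) (Fin n) ℂ →⋆ₐ[ℂ] B) (hφ : Comm (m := fun _ => n) φ)
    {p : ℕ} (hp : p.Prime) (hpn : p ∣ n) : #K ≤ #{j | p ∣ m j} := by
  by_contra h
  push Not at h
  by_cases hfin : {j | p ∣ m j}.Finite
  · exact no_embed_finite hc hgen φ hφ hp hpn hfin
  · have : Infinite {j | p ∣ m j} := Set.infinite_coe_iff.mpr hfin
    exact no_embed_uncountable hc hgen φ hφ hp hpn _ (aleph0_le_mk _) le_rfl h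

end Pool.Agent.MP_c44838_an
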