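import Mathlib
import Pool.Agent.MP_c44838_an.Defs
import Pool.Agent.MP_c44838_an.Lower

namespace Pool.Agent.MP_c44838_an

open Matrix Filter Topology Cardinal

universe u

lemma mk_biUnion_finset_lt {I : Type u} {τ : Type*} (s : Finset τ) (Y : τ → Set I)
    (μ : Cardinal.{u}) (hμ : ℵ₀ ≤ μ) (h : ∀ t ∈ s, #(Y t) < μ) : #(⋃ t ∈ s, Y t) < μ := by
  classical
  induction s using Finset.induction_on with
  | empty => simpa using aleph0_pos.trans_le hμ
  | insert a s _ ih =>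
    rw [Finset.set_biUnion_insert]
    refine (mk_union_le _ _).trans_lt (add_lt_of_lt hμ (h a (by simp)) (ih fun t ht => ?_))
    exact h t (by simp [ht])

lemma exists_injective_transversal {I K : Type u} [Infinite K] {ρ : Type} [Fintype ρ]
    (X : ρ → Set I) (hX : ∀ r, #K ≤ #(X r)) :
    ∃ g : K × ρ → I, Function.Injective g ∧ ∀ k r, g (k, r) ∈ X r := by
  classical
  let ty : I → Finset ρ := fun i => Finset.univ.filter (fun r => i ∈ X r)
  let Y : Finset ρ → Set I := fun τ => {i | ty i = τ}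
  have h1 : ∀ r, ∃ τ, r ∈ τ ∧ #K ≤ #(Y τ) := by
    intro r
    by_contra h
    push Not at h
    have h2 := mk_biUnion_finset_lt (Finset.univ.filter (fun τ => r ∈ τ)) Y (#K) (aleph0_le_mk _)
      (fun τ hτ => h τ (Finset.mem_filter.mp hτ).2)
    have h3 : X r ⊆ ⋃ t ∈ Finset.univ.filter (fun τ => r ∈ τ), Y t := by
      intro i hi
      simp only [Set.mem_iUnion]
      exact ⟨ty i, by simp [ty, hi], rfl⟩
    exact absurd ((hX r).trans (mk_le_mk_of_subset h3)) (not_le.mpr h2)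
  choose τ hτ1 hτ2 using h1
  have hKρ : #(K × ρ) ≤ #K := by
    simp only [mk_prod, lift_uzero, mk_fintype, lift_natCast]
    exact (mul_le_mul' le_rfl ((natCast_lt_aleph0.le).trans (aleph0_le_mk K))).trans
      (mul_eq_self (aleph0_le_mk K)).le
  have h2 : ∀ σ : Finset ρ, ∃ e : K × ρ → I, #K ≤ #(Y σ) →
      Function.Injective e ∧ ∀ z, e z ∈ Y σ := by
    intro σ
    by_cases h : #K ≤ #(Y σ)
    · obtain ⟨e⟩ := (Cardinal.le_def _ _).mp (hKρ.trans h)
      exact ⟨fun z => e z, fun _ => ⟨Subtype.val_injective.comp e.injective, fun z => (e z).2⟩⟩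
    · by_cases hρ : Nonempty ρ
      · obtain ⟨r⟩ := hρ
        obtain ⟨e⟩ := (Cardinal.le_def _ _).mp (hKρ.trans (hX r))
        exact ⟨fun z => e z, fun h' => absurd h' h⟩
      · exact ⟨fun z => (hρ ⟨z.2⟩).elim, fun h' => absurd h' h⟩
  choose e he using h2
  refine ⟨fun z => e (τ z.2) z, ?_, ?_⟩
  · intro z w hzw
    have hz : ty (e (τ z.2) z) = τ z.2 := (he _ (hτ2 _)).2 z
    have hw : ty (e (τ w.2) w) = τ w.2 := (he _ (hτ2 _)).2 w
    simp only at hzw
    have h3 : τ z.2 = τ w.2 := by rw [← hz, ← hw, hzw]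
    rw [h3] at hzw
    exact (he _ (hτ2 _)).1 hzw
  · intro k r
    have hz : ty (e (τ r) (k, r)) = τ r := (he _ (hτ2 _)).2 _
    have := hτ1 r
    rw [← hz] at this
    simpa [ty] using this

lemma exists_comm_family {A : Type*} [CStarAlgebra A] {I K : Type u} [Infinite K] {m : I → ℕ}
    {ι : ∀ j, Matrix (Fin (m j)) (Fin (m j)) ℂ →⋆ₐ[ℂ] A} (hc : Comm ι) {n : ℕ} (hn : n ≠ 0)
    (h : ∀ p : ℕ, p.Prime → p ∣ n → #K ≤ #{i | p ∣ m i}) :
    ∃ ψ : K → Matrix (Fin n) (Fin n) ℂ →⋆ₐ[ℂ] A, Comm (m := fun _ => n) ψ := by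
  classical
  set l := n.primeFactorsList with hl
  obtain ⟨g, hg1, hg2⟩ := exists_injective_transversal (K := K)
    (fun r : Fin l.length => {i | l[r.1] ∣ m i})
    (fun r => h _ (Nat.prime_of_mem_primeFactorsList (List.getElem_mem r.2))
      (Nat.dvd_of_mem_primeFactorsList (List.getElem_mem r.2)))
  let F : K → Finset I := fun k => Finset.univ.image (fun r => g (k, r))
  have hF : ∀ k, n ∣ ∏ i ∈ F k, m i := by
    intro k
    rw [Finset.prod_image (fun r _ r' _ hr => by simpa using hg1 hr)]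
    have h1 : n = ∏ r : Fin l.length, l[r.1] := by
      rw [Fin.prod_univ_getElem, hl, Nat.prod_primeFactorsList hn]
    conv_lhs => rw [h1]
    exact Finset.prod_dvd_prod_of_dvd _ _ fun r _ => hg2 k r
  have h2 : ∀ k, ∃ ψ : Matrix (Fin n) (Fin n) ℂ →⋆ₐ[ℂ] A, ψ.range ≤ BF ι (F k) := by
    intro k
    obtain ⟨θ, hθ⟩ := exists_block hc (F k)
    obtain ⟨ψ, hψ⟩ := exists_of_dvd (hF k) θ
    exact ⟨ψ, hθ ▸ hψ⟩
  choose ψ hψ using h2
  refine ⟨ψ, fun k k' hk a b => ?_⟩
  refine comm_BF (fun j hj y => BF_comm hc (hψ k ⟨a, rfl⟩) (fun hj' => hk ?_) y) (hψ k' ⟨b, rfl⟩)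
  simp only [F, Finset.coe_image, Finset.coe_univ, Set.image_univ, Set.mem_range] at hj hj'
  obtain ⟨r, hr⟩ := hj
  obtain ⟨r', hr'⟩ := hj'
  have := hg1 (hr'.trans hr.symm)
  exact congrArg Prod.fst this

open scoped Matrix.Norms.L2Operator in
lemma norm_le_of_hom {P C : Type*} [CStarAlgebra P] [CStarAlgebra C] [Nontrivial C]
    {J : Type*} {m : J → ℕ} {δ : ∀ j, Matrix (Fin (m j)) (Fin (m j)) ℂ →⋆ₐ[ℂ] P} (hc : Comm δ)
    (π : P →⋆ₐ[ℂ] C) {x : P} (hx : x ∈ (BF δ Set.univ).topologicalClosure) : ‖x‖ ≤ ‖π x‖ := by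
  have hπ : Continuous π :=
    AddMonoidHomClass.continuous_of_bound π 1
      (fun a => by simpa using NonUnitalStarAlgHom.norm_apply_le π a)
  have h1 : IsClosed {x : P | ‖x‖ ≤ ‖π x‖} := isClosed_le (by fun_prop) (by fun_prop)
  refine closure_minimal (fun u hu => ?_) h1 hx
  obtain ⟨G, -, hu⟩ := exists_finset_of_mem hu
  obtain ⟨θ, hθ⟩ := exists_block hc G
  rw [← hθ] at hu
  obtain ⟨z, rfl⟩ := hu
  have hne : Nonempty (Fin (∏ j ∈ G, m j)) :=
    Fintype.card_pos_iff.mp (Nat.pos_of_ne_zero (isMU_mu (π.comp θ)).card_ne_zero)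
  have hinj : Function.Injective (π.comp θ) := RingHom.injective (π.comp θ).toAlgHom.toRingHom
  have h2 := NonUnitalStarAlgHom.norm_map (π.comp θ) hinj z
  have h3 := NonUnitalStarAlgHom.norm_apply_le θ z
  change ‖θ z‖ ≤ ‖π (θ z)‖
  exact h3.trans h2.ge

lemma exists_embedding {C A : Type*} [CStarAlgebra C] [CStarAlgebra A] [Nontrivial C]
    [Nontrivial A] {J : Type*} {m : J → ℕ}
    {γ : ∀ j, Matrix (Fin (m j)) (Fin (m j)) ℂ →⋆ₐ[ℂ] C} (hγ : Comm γ)
    (hgen : (BF γ Set.univ).topologicalClosure = ⊤)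
    {ψ : ∀ j, Matrix (Fin (m j)) (Fin (m j)) ℂ →⋆ₐ[ℂ] A} (hψ : Comm ψ) :
    ∃ Ψ : C →⋆ₐ[ℂ] A, Function.Injective Ψ := by
  let δ : ∀ j, Matrix (Fin (m j)) (Fin (m j)) ℂ →⋆ₐ[ℂ] C × A := fun j => (γ j).prod (ψ j)
  have hδ : Comm δ := fun i j hij a b => Prod.ext (hγ i j hij a b) (hψ i j hij a b)
  let E : StarSubalgebra ℂ (C × A) := (BF δ Set.univ).topologicalClosure
  have hE : IsClosed (E : Set (C × A)) := StarSubalgebra.isClosed_topologicalClosure _
  let inst : CStarAlgebra E := StarSubalgebra.cstarAlgebra E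
  let f : E →⋆ₐ[ℂ] C := (StarAlgHom.fst ℂ C A).comp E.subtype
  let g : E →⋆ₐ[ℂ] A := (StarAlgHom.snd ℂ C A).comp E.subtype
  have hf : Function.Injective f := by
    rw [injective_iff_map_eq_zero]
    intro x hx
    have h1 := norm_le_of_hom hδ (StarAlgHom.fst ℂ C A) x.2
    have h2 : StarAlgHom.fst ℂ C A x.1 = 0 := hx
    rw [h2, norm_zero] at h1
    exact Subtype.ext (norm_le_zero_iff.mp h1)
  have hg : Function.Injective g := by
    rw [injective_iff_map_eq_zero]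
    intro x hx
    have h1 := norm_le_of_hom hδ (StarAlgHom.snd ℂ C A) x.2
    have h2 : StarAlgHom.snd ℂ C A x.1 = 0 := hx
    rw [h2, norm_zero] at h1
    exact Subtype.ext (norm_le_zero_iff.mp h1)
  have hfs : Function.Surjective f := by
    have h1 : IsClosed (f.range : Set C) :=
      (NonUnitalStarAlgHom.isometry f hf).isClosedEmbedding.isClosed_range
    have h2 : BF γ Set.univ ≤ f.range := by
      rw [BF_le_iff]
      intro j _ a
      exact ⟨⟨δ j a, StarSubalgebra.le_topologicalClosure _ (mem_BF (Set.mem_univ j) a)⟩, rfl⟩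
    have h3 := StarSubalgebra.topologicalClosure_minimal h2 h1
    rw [hgen] at h3
    intro y
    exact h3 (StarSubalgebra.mem_top (x := y))
  let e := StarAlgEquiv.ofBijective f ⟨hf, hfs⟩
  exact ⟨g.comp (e.symm : C →⋆ₐ[ℂ] E), hg.comp e.symm.injective⟩

lemma hom_mem_closure {A B : Type*} [CStarAlgebra A] [CStarAlgebra B] {J : Type*} {m : J → ℕ}
    {ι : ∀ j, Matrix (Fin (m j)) (Fin (m j)) ℂ →⋆ₐ[ℂ] A}
    (hgen : (BF ι Set.univ).topologicalClosure = ⊤) (f : A →⋆ₐ[ℂ] B) (R : StarSubalgebra ℂ B)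
    (hR : IsClosed (R : Set B)) (h : ∀ j a, f (ι j a) ∈ R) (a : A) : f a ∈ R := by
  have hf : Continuous f :=
    AddMonoidHomClass.continuous_of_bound f 1
      (fun a => by simpa using NonUnitalStarAlgHom.norm_apply_le f a)
  have h1 : BF ι Set.univ ≤ R.comap f := BF_le_iff.mpr fun j _ a => h j a
  have h2 := StarSubalgebra.topologicalClosure_minimal h1 (hR.preimage hf)
  rw [hgen] at h2
  exact h2 (StarSubalgebra.mem_top (x := a))

theorem main {I K K' : Type u} (m : I → ℕ) (n : ℕ) (hK : #K < #K') [Infinite K']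
    (A : Type*) (D : Type*) (C : Type*) (B : Type*)
    [CStarAlgebra A] [CStarAlgebra D] [CStarAlgebra C] [CStarAlgebra B]
    (hA : IsMatrixTensorProduct m A) (hD : IsMatrixTensorProduct (fun _ : K => n) D)
    (hC : IsMatrixTensorProduct (fun _ : K' => n) C) (hB : IsCStarTensorProduct A D B)
    (h : ∃ Φ : C →⋆ₐ[ℂ] B, Function.Injective Φ) :
    ∃ Ψ : C →⋆ₐ[ℂ] A, Function.Injective Ψ := by
  obtain ⟨hA0, ι, hι, hιg⟩ := hA
  obtain ⟨hD0, d, hd, hdg⟩ := hD
  obtain ⟨hC0, γ, hγ, hγg⟩ := hC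
  obtain ⟨f, g, hfg, hBg⟩ := hB
  obtain ⟨Φ, hΦ⟩ := h
  rw [← BF_univ] at hιg hdg hγg
  have hB0 : Nontrivial B := hΦ.nontrivial
  let m' : I ⊕ K → ℕ := Sum.elim m (fun _ => n)
  let ι' : ∀ j, Matrix (Fin (m' j)) (Fin (m' j)) ℂ →⋆ₐ[ℂ] B := fun j =>
    Sum.rec (motive := fun j => Matrix (Fin (m' j)) (Fin (m' j)) ℂ →⋆ₐ[ℂ] B)
      (fun i => f.comp (ι i)) (fun k => g.comp (d k)) j
  have hι' : Comm ι' := by
    rintro (i | k) (j | l) hij a b
    · change f (ι i a) * f (ι j b) = f (ι j b) * f (ι i a)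
      rw [← map_mul, ← map_mul, hι i j (fun h => hij (congrArg _ h))]
    · exact hfg _ _
    · exact (hfg _ _).symm
    · change g (d k a) * g (d l b) = g (d l b) * g (d k a)
      rw [← map_mul, ← map_mul, hd k l (fun h => hij (congrArg _ h))]
  have hgen' : (BF ι' Set.univ).topologicalClosure = ⊤ := by
    rw [eq_top_iff, ← hBg]
    refine StarSubalgebra.topologicalClosure_minimal (StarAlgebra.adjoin_le ?_)
      (StarSubalgebra.isClosed_topologicalClosure _)
    rintro _ (⟨a, rfl⟩ | ⟨a, rfl⟩)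
    · refine hom_mem_closure hιg f _ (StarSubalgebra.isClosed_topologicalClosure _) ?_ a
      intro j a
      exact StarSubalgebra.le_topologicalClosure _
        (mem_BF (ι := ι') (Set.mem_univ (Sum.inl j)) a)
    · refine hom_mem_closure hdg g _ (StarSubalgebra.isClosed_topologicalClosure _) ?_ a
      intro j a
      exact StarSubalgebra.le_topologicalClosure _
        (mem_BF (ι := ι') (Set.mem_univ (Sum.inr j)) a)
  have hφ : Comm (m := fun _ : K' => n) (fun k => Φ.comp (γ k)) := by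
    intro k l hkl a b
    change Φ (γ k a) * Φ (γ l b) = Φ (γ l b) * Φ (γ k a)
    rw [← map_mul, ← map_mul, hγ k l hkl]
  have hn : n ≠ 0 := by
    simpa using (isMU_mu (γ (Classical.arbitrary K'))).card_ne_zero
  obtain ⟨ψ, hψ⟩ := exists_comm_family (K := K') (ι := ι) hι hn (by
    intro p hp hpn
    have h1 := card_le_of_comm hι' hgen' _ hφ hp hpn
    have h2 : #{j | p ∣ m' j} ≤ #{i | p ∣ m i} + #K := by
      have h3 : {j | p ∣ m' j} ⊆ Sum.inl '' {i | p ∣ m i} ∪ Set.range Sum.inr := by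
        rintro (i | k) hj
        · exact Or.inl ⟨i, hj, rfl⟩
        · exact Or.inr ⟨k, rfl⟩
      exact (mk_le_mk_of_subset h3).trans ((mk_union_le _ _).trans
        (add_le_add mk_image_le mk_range_le))
    by_contra h4
    push Not at h4
    exact absurd (h1.trans h2) (not_le.mpr (add_lt_of_lt (aleph0_le_mk _) h4 hK)))
  exact exists_embedding hγ hγg hψ

end Pool.Agent.MP_c44838_an
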